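import Pool.Agent.J4H44.BM.Defs

/-!
# Nilpotence of numerically trivial correspondences, and left inverses: definitions
-/

open CategoryTheory AlgebraicGeometry

universe u v

namespace Pool.Agent.J4H44.BM

open Pool.Agent.H914 VarClass Obj WeilCohomology Pool.Agent.H447

variable {k : Type u} [Field k] {𝒱 : VarClass k} {ops : CycleOps 𝒱}

/-- The numerically trivial self-correspondences of degree zero of `X` are nilpotent: every cycle
`Z` of codimension `dim X` on `X × X`, with rational coefficients, which has intersection number
zero with all cycles of codimension `dim X`, acts nilpotently on the cohomology of `X`. -/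
def NumNil (W : WeilCohomology.{u, v} ops) (X : 𝒱.Obj) : Prop :=
  ∀ Z, (X.prod X).IsCyc X.dim Z →
    (∀ Z', (X.prod X).IsCyc X.dim Z' → (X.prod X).V.degCycle (ops.mul Z Z') = 0) →
    IsNilpotent (W.corr (W.cl _ Z))

/-- The map `L ^ s : H^i(X) → H^(i + 2 s)(X)`, where `L` is the cup product with the class of the
divisor `D`, has a left inverse which is induced by an element `γ` of the `K`-linear span of the
classes of the cycles of codimension `dim X - s` on `X × X`, where `K` is the coefficient field. -/
def LeftInvK (W : WeilCohomology.{u, v} ops) (X : 𝒱.Obj) (D : X.Cycles) (i s : ℕ) : Prop :=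
  ∃ c : ℕ, c + s = X.dim ∧ ∃ γ ∈ spanCycles W (X.prod X) c,
    LeftInverseOn (W.gr X) (W.cl X D) i s (W.corr γ)

end Pool.Agent.J4H44.BM
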