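import Pool.Agent.J4H44.BM.Defs
import Pool.Agent.W534.HDefs

/-!
# General sections: definitions
-/

open CategoryTheory AlgebraicGeometry

universe u v

namespace Pool.Agent.J4H44.BM

open Pool.Agent.H914 VarClass Obj WeilCohomology Pool.Agent.H447

section Alg

variable {K : Type*} [Field K] {A B : Type*} [Ring A] [Algebra K A] [Ring B] [Algebra K B]

/-- The element `x` is a nonzero rational multiple of `ξ ^ r`. -/
def IsRatPower (K : Type*) [Field K] {A : Type*} [Ring A] [Algebra K A] (x ξ : A) (r : ℕ) :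
    Prop :=
  ∃ m : ℚ, m ≠ 0 ∧ x = (m : K) • ξ ^ r

/-- The map `f` is injective on `gr i`, for `i < n`. -/
def InjBelow (gr : ℕ → Submodule K A) (n : ℕ) (f : A →ₐ[K] B) : Prop :=
  ∀ i < n, ∀ a ∈ gr i, f a = 0 → a = 0

/-- The map `f` from `gr i` to `gr' i` is surjective, for `i < n`. -/
def SurjBelow (gr : ℕ → Submodule K A) (gr' : ℕ → Submodule K B) (n : ℕ) (f : A →ₐ[K] B) :
    Prop :=
  ∀ i < n, ∀ b ∈ gr' i, ∃ a ∈ gr i, f a = b

/-- The map `g` is not injective on `V`. -/
def NotInjOn (V : Submodule K B) (g : B →ₗ[K] A) : Prop :=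
  ∃ v ∈ V, v ≠ 0 ∧ g v = 0

/-- Every element `cl Z` with `P Z` is `f (cl' w)` for some `w` with `P' w`. -/
def RestrictsFrom {ι κ : Type*} (P : ι → Prop) (P' : κ → Prop) (cl : ι → B) (cl' : κ → A)
    (f : A →ₐ[K] B) : Prop :=
  ∀ Z, P Z → ∃ w, P' w ∧ cl Z = f (cl' w)

/-- Every element `cl Z` with `P Z` is `a δ + f (cl' w)` for some rational number `a` and some `w`
with `P' w`. -/
def RestrictsFromUpTo {ι κ : Type*} (δ : B) (P : ι → Prop) (P' : κ → Prop) (cl : ι → B)
    (cl' : κ → A) (f : A →ₐ[K] B) : Prop :=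
  ∀ Z, P Z → ∃ (a : ℚ) (w : κ), P' w ∧ cl Z = (a : K) • δ + f (cl' w)

end Alg

variable {k : Type u} [Field k] {𝒱 : VarClass k} {ops : CycleOps 𝒱}

/-- The morphism `j × j`. -/
noncomputable def sqMap {X Y : 𝒱.Obj} (j : Y ⟶ X) : Y.prod Y ⟶ X.prod X :=
  Obj.lift (fst Y Y ≫ j) (snd Y Y ≫ j)

/-- The diagonal of `Y` as a cycle on `Y × Y`. -/
noncomputable def diagCyc (ops : CycleOps 𝒱) (Y : 𝒱.Obj) : (Y.prod Y).Cycles :=
  ops.push (diag Y) Y.V.fundCycle

/-- The classes of the algebraic cycles of codimension `c` on `Y × Y` are restrictions of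
classes of algebraic cycles on `X × X`. -/
def CyclesRestrict (W : WeilCohomology.{u, v} ops) {X Y : 𝒱.Obj} (j : Y ⟶ X) (c : ℕ) : Prop :=
  RestrictsFrom ((Y.prod Y).IsCyc c) ((X.prod X).IsCyc c) (W.cl (Y.prod Y)) (W.cl (X.prod X))
    (W.map (sqMap j))

/-- The classes of the algebraic cycles of codimension `c` on `Y × Y` are sums of a rational
multiple of the class of the diagonal and the restriction of the class of an algebraic cycle on
`X × X`. -/
def CyclesRestrictUpTo (W : WeilCohomology.{u, v} ops) {X Y : 𝒱.Obj} (j : Y ⟶ X) (c : ℕ) :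
    Prop :=
  RestrictsFromUpTo (W.cl (Y.prod Y) (diagCyc ops Y)) ((Y.prod Y).IsCyc c)
    ((X.prod X).IsCyc c) (W.cl (Y.prod Y)) (W.cl (X.prod X)) (W.map (sqMap j))

/-- `Y`, with the morphism `j` to `X`, is a *general section* of `X` with respect to the divisor
`D`. In the intended use `Y` is a very general complete intersection of `X` with divisors of large
degree which are multiples of the ample divisor `D`. -/
structure GeneralSection (W : WeilCohomology.{u, v} ops) {X Y : 𝒱.Obj} (j : Y ⟶ X)
    (D : X.Cycles) : Prop where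
  /-- the codimension is positive -/
  lt : Y.dim < X.dim
  /-- the class of `Y` in `H(X)` is a nonzero multiple of the power of the class of `D` -/
  cls : IsRatPower W.K (W.cl X (ops.push j Y.V.fundCycle)) (W.cl X D) (X.dim - Y.dim)
  /-- weak Lefschetz: injectivity -/
  inj : InjBelow (W.gr X) Y.dim (W.map j)
  /-- weak Lefschetz: surjectivity -/
  surj : SurjBelow (W.gr X) (W.gr Y) Y.dim (W.map j)
  /-- there are vanishing cycles: the push-forward is not injective on the middle cohomology -/
  van : NotInjOn (W.gr Y Y.dim) (W.push j)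
  /-- the algebraic classes of codimension `c < dim Y` on `Y × Y` are restrictions -/
  low : ∀ c < Y.dim, CyclesRestrict W j c
  /-- the algebraic classes of codimension `dim Y` on `Y × Y` are restrictions up to the diagonal -/
  mid : CyclesRestrictUpTo W j Y.dim

end Pool.Agent.J4H44.BM
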