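import Pool.Agent.J4H44.BM.Dich
import Pool.Agent.J4H44.BM.SecDefs
import Pool.Agent.W534.Hyp
import Pool.Agent.H447R3.KuDefs

/-!
# General sections
-/

open CategoryTheory AlgebraicGeometry Finset

universe u v

namespace Pool.Agent.J4H44.BM

open Pool.Agent.H914 VarClass Obj WeilCohomology Pool.Agent.H447 Pool.Agent.W534

variable {k : Type u} [Field k] {𝒱 : VarClass k} {ops : CycleOps 𝒱}
  {W : WeilCohomology.{u, v} ops} {X Y : 𝒱.Obj} {j : Y ⟶ X} {D : X.Cycles}

/-- The operator induced by an external product. -/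
lemma corr_tmul (a b : W.H X) {p : ℕ} (hb : b ∈ W.gr X p) {l : ℕ} {x : W.H X}
    (hx : x ∈ W.gr X l) :
    W.corr (W.map (fst X X) a * W.map (snd X X) b) x =
      ((-1 : W.K) ^ (p * l) * W.tr X (a * x)) • b := by
  rw [corr_apply, mul_assoc, W.comm (W.map_mem (snd X X) hb) (W.map_mem (fst X X) hx),
    mul_smul_comm, ← mul_assoc, ← map_mul (W.map (fst X X)), map_smul, push_snd, smul_smul]

/-- The restriction of a correspondence. -/
lemma corr_sqMap (j : Y ⟶ X) (c : W.H (X.prod X)) :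
    W.corr (W.map (sqMap j) c) = (W.map j).toLinearMap ∘ₗ W.corr c ∘ₗ W.push j := by
  refine W.kunneth_induction (p := fun c =>
    W.corr (W.map (sqMap j) c) = (W.map j).toLinearMap ∘ₗ W.corr c ∘ₗ W.push j) ?_ ?_ c
  · intro a b ha hb
    rw [map_add, corr_add, ha, hb, corr_add, LinearMap.add_comp, LinearMap.comp_add]
  · intro p q a ha b hb
    have e1 : sqMap j ≫ fst X X = fst Y Y ≫ j := Obj.lift_fst _ _
    have e2 : sqMap j ≫ snd X X = snd Y Y ≫ j := Obj.lift_snd _ _
    rw [map_mul (W.map (sqMap j)), ← W.map_comp, ← W.map_comp, e1, e2, W.map_comp, W.map_comp]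
    apply gr_ext (W.isInternal Y)
    intro l y hy
    rw [corr_tmul _ _ (W.map_mem j hb) hy, LinearMap.comp_apply, LinearMap.comp_apply]
    have h1 := W.push_mem j hy
    by_cases hm : ∃ r : ℕ, (r : ℤ) = (l : ℤ) + 2 * ((X.dim : ℤ) - Y.dim)
    · obtain ⟨r, hr⟩ := hm
      rw [← hr, grZ_natCast] at h1
      rw [corr_tmul _ _ hb h1, tr_mul_push, AlgHom.toLinearMap_apply, map_smul]
      congr 2
      have h2 : Even (q * l + q * r) := by
        rw [← mul_add]
        apply Even.mul_left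
        have : ((l + r : ℕ) : ℤ) = 2 * (l + ((X.dim : ℤ) - Y.dim)) := by push_cast; omega
        have h3 : Even ((l + r : ℕ) : ℤ) := ⟨l + ((X.dim : ℤ) - Y.dim), by rw [this]; ring⟩
        exact_mod_cast h3
      have h4 : (-1 : W.K) ^ (q * l) * (-1) ^ (q * r) = 1 := by rw [← pow_add, h2.neg_one_pow]
      have h5 := neg_one_sq W.K (q * r)
      calc (-1 : W.K) ^ (q * l) = (-1 : W.K) ^ (q * l) * ((-1 : W.K) ^ (q * r) *
            (-1) ^ (q * r)) := by rw [h5, mul_one]
        _ = (-1 : W.K) ^ (q * r) := by rw [← mul_assoc, h4, one_mul]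
    · push Not at hm
      by_cases hneg : (l : ℤ) + 2 * ((X.dim : ℤ) - Y.dim) < 0
      · rw [grZ_of_neg hneg] at h1
        have h0 : W.push j y = 0 := (Submodule.mem_bot _).1 h1
        rw [← tr_mul_push, h0]
        simp
      · exact absurd (Int.toNat_of_nonneg (by omega)) (hm _)

lemma corr_diagCyc (Y : 𝒱.Obj) :
    W.corr (W.cl (Y.prod Y) (diagCyc ops Y)) = (1 : Module.End W.K (W.H Y)) := by
  apply LinearMap.ext
  intro a
  rw [diagCyc, W.cl_push, W.cl_fund, corr_diag, one_mul, Module.End.one_apply]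

/-- The parity operators commute with operators of even degree. -/
lemma par_comp {d : ℤ} {φ : W.H X →ₗ[W.K] W.H Y} (hφ : QOp W X Y d φ) :
    par (W.isInternal Y) ∘ₗ φ = φ ∘ₗ par (W.isInternal X) := by
  apply gr_ext (W.isInternal X)
  intro i a ha
  have h1 := KOp.isHom hφ.kop i a (by rw [grZ_natCast]; exact ha)
  rw [LinearMap.comp_apply, LinearMap.comp_apply, par, par, scal_apply _ _ ha, map_smul]
  by_cases hm : ∃ r : ℕ, (r : ℤ) = (i : ℤ) + 2 * d
  · obtain ⟨r, hr⟩ := hm
    rw [← hr, grZ_natCast] at h1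
    rw [scal_apply _ _ h1]
    congr 1
    have h2 : Even (r + i) := by
      have : ((r + i : ℕ) : ℤ) = 2 * (i + d) := by push_cast; omega
      have h3 : Even ((r + i : ℕ) : ℤ) := ⟨i + d, by rw [this]; ring⟩
      exact_mod_cast h3
    have h4 : (-1 : W.K) ^ r * (-1) ^ i = 1 := by rw [← pow_add, h2.neg_one_pow]
    have h5 := neg_one_sq W.K i
    calc (-1 : W.K) ^ r = (-1 : W.K) ^ r * ((-1 : W.K) ^ i * (-1) ^ i) := by rw [h5, mul_one]
      _ = (-1 : W.K) ^ i := by rw [← mul_assoc, h4, one_mul]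
  · push Not at hm
    by_cases hneg : (i : ℤ) + 2 * d < 0
    · rw [grZ_of_neg hneg] at h1
      rw [(Submodule.mem_bot _).1 h1, map_zero, smul_zero]
    · exact absurd (Int.toNat_of_nonneg (by omega)) (hm _)

lemma op_mem {d : ℤ} {φ : W.H X →ₗ[W.K] W.H Y} (hφ : QOp W X Y d φ) {i l : ℕ} {a : W.H X}
    (ha : a ∈ W.gr X i) (hij : (l : ℤ) = i + 2 * d) : φ a ∈ W.gr Y l := by
  have h := KOp.isHom hφ.kop i a (by rw [grZ_natCast]; exact ha)
  rwa [← hij, grZ_natCast] at h

lemma lop_mem (hD : X.IsCyc 1 D) {i s : ℕ} {a : W.H X} (ha : a ∈ W.gr X i) :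
    W.cl X D ^ s * a ∈ W.gr X (i + 2 * s) := by
  rw [← lop_pow_apply]
  exact op_mem (rop_iff.1 (lop_rop (W := W) hD s)) ha (by push_cast; ring)

namespace GeneralSection

variable (G : GeneralSection W j D)
include G

/-- The algebraic correspondences on a general section. -/
lemma exists_op {φ : Module.End W.K (W.H Y)} (hφ : QOp W Y Y 0 φ) :
    ∃ (a : ℚ) (w : Module.End W.K (W.H X)), QOp W X X ((Y.dim : ℤ) - X.dim) w ∧
      φ = (a : W.K) • 1 + (W.map j).toLinearMap ∘ₗ w ∘ₗ W.push j := by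
  obtain ⟨Z, hZ, rfl⟩ := hφ.exists_cyc (p := Y.dim) (by ring)
  obtain ⟨a, w, hw, h⟩ := G.mid Z hZ
  refine ⟨a, W.corr (W.cl _ w), QOp.gen (p := Y.dim) (by ring) hw, ?_⟩
  rw [h, corr_add, corr_smul, corr_diagCyc, corr_sqMap]

lemma push_map : ∃ m : ℚ, m ≠ 0 ∧ ∀ a, W.push j (W.map j a) =
    (m : W.K) • (W.cl X D ^ (X.dim - Y.dim) * a) := by
  obtain ⟨m, hm, h⟩ := G.cls
  refine ⟨m, hm, fun a => ?_⟩
  have h1 := W.push_mul j 1 a
  rw [one_mul] at h1
  rw [W.cl_push, W.cl_fund] at h
  rw [h1, h, smul_mul_assoc]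

/-- **The sign conjecture for a general section gives left inverses on the ambient variety.** -/
theorem exists_of_sign (hD : X.IsCyc 1 D) (hS : SignStd W Y) :
    ∃ w : Module.End W.K (W.H X), QOp W X X ((Y.dim : ℤ) - X.dim) w ∧
      (∀ i < Y.dim, i % 2 ≠ Y.dim % 2 → ∀ a ∈ W.gr X i,
        w (W.cl X D ^ (X.dim - Y.dim) * a) = a) ∧
      ∃ m : ℚ, m ≠ 0 ∧
        (∀ a, W.push j (W.map j a) = (m : W.K) • (W.cl X D ^ (X.dim - Y.dim) * a)) ∧
        (W.map j).toLinearMap ∘ₗ w ∘ₗ W.push j =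
          ((m : W.K) * 2⁻¹) • (1 - (-1 : W.K) ^ Y.dim • par (W.isInternal Y)) := by
  obtain ⟨a, w, hw, hpar⟩ := G.exists_op (rop_iff.1 (par_rop_of_sign hS))
  obtain ⟨m, hm, hpm⟩ := G.push_map
  obtain ⟨v, hv, hv0, hjv⟩ := G.van
  have ha : (a : W.K) = (-1 : W.K) ^ Y.dim := by
    have h1 := congrArg (fun F => F v) hpar
    simp only [LinearMap.add_apply, LinearMap.comp_apply, LinearMap.smul_apply, hjv, map_zero,
      add_zero, Module.End.one_apply] at h1
    rw [par, scal_apply _ _ hv, ← sub_eq_zero, ← sub_smul] at h1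
    exact (sub_eq_zero.1 ((smul_eq_zero.1 h1).resolve_right hv0)).symm
  have hsq := neg_one_sq W.K Y.dim
  set σ : W.K := (-1 : W.K) ^ Y.dim with hσ
  have h2 : (2 : W.K) ≠ 0 := two_ne_zero
  -- normalisation
  have hq : ((-(m * (-1) ^ Y.dim / 2) : ℚ) : W.K) = -((m : W.K) * σ * 2⁻¹) := by
    rw [hσ]; push_cast; ring
  have hcomp : (W.map j).toLinearMap ∘ₗ w ∘ₗ W.push j = par (W.isInternal Y) - σ • 1 := by
    rw [hpar, ha]; abel
  refine ⟨((-(m * (-1) ^ Y.dim / 2) : ℚ) : W.K) • w, hw.smul _, ?_, m, hm, hpm, ?_⟩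
  · intro i hi hpi x hx
    have hxi : (-1 : W.K) ^ i = -σ := by
      rw [hσ]
      rcases Nat.even_or_odd i with h | h <;> rcases Nat.even_or_odd Y.dim with h' | h'
      · rw [Nat.even_iff] at h h'; omega
      · rw [h.neg_one_pow, h'.neg_one_pow, neg_neg]
      · rw [h.neg_one_pow, h'.neg_one_pow]
      · rw [Nat.odd_iff] at h h'; omega
    have h1 := congrArg (fun F => F (W.map j x)) hcomp
    simp only [LinearMap.comp_apply, LinearMap.sub_apply, LinearMap.smul_apply,
      Module.End.one_apply, AlgHom.toLinearMap_apply] at h1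
    rw [hpm, par, scal_apply _ _ (W.map_mem j hx), hxi, map_smul, map_smul] at h1
    have h3 : W.map j ((m : W.K) • w (W.cl X D ^ (X.dim - Y.dim) * x) + (2 * σ) • x) = 0 := by
      rw [map_add, map_smul, map_smul, h1]
      module
    have hwx : w (W.cl X D ^ (X.dim - Y.dim) * x) ∈ W.gr X i :=
      op_mem hw (lop_mem hD hx) (by have := G.lt; omega)
    have h4 := G.inj i hi _ (Submodule.add_mem _ (Submodule.smul_mem _ _ hwx)
      (Submodule.smul_mem _ _ hx)) h3
    rw [LinearMap.smul_apply, hq]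
    have h5 : (m : W.K) • w (W.cl X D ^ (X.dim - Y.dim) * x) = -((2 * σ) • x) :=
      eq_neg_of_add_eq_zero_left h4
    calc -((m : W.K) * σ * 2⁻¹) • w (W.cl X D ^ (X.dim - Y.dim) * x)
        = -(σ * 2⁻¹) • ((m : W.K) • w (W.cl X D ^ (X.dim - Y.dim) * x)) := by
          rw [smul_smul]; congr 1; ring
      _ = x := by
          rw [h5, smul_neg, neg_smul, neg_neg, smul_smul]
          have : σ * 2⁻¹ * (2 * σ) = 1 := by
            field_simp
            rw [← hsq]; ring
          rw [this, one_smul]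
  · rw [hq, LinearMap.smul_comp, LinearMap.comp_smul, hcomp, smul_sub, smul_sub, smul_smul,
      smul_smul]
    have e1 : -((m : W.K) * σ * 2⁻¹) * σ = -((m : W.K) * 2⁻¹) := by
      calc -((m : W.K) * σ * 2⁻¹) * σ = -((m : W.K) * 2⁻¹) * (σ * σ) := by ring
        _ = _ := by rw [hsq, mul_one]
    rw [e1]
    module

/-- Left inverses from the sign conjecture for a general section. -/
theorem leftInv (hD : X.IsCyc 1 D) (hS : SignStd W Y) {i : ℕ} (hi : i < Y.dim)
    (hpi : i % 2 ≠ Y.dim % 2) : LeftInvAlg W X D i (X.dim - Y.dim) := by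
  obtain ⟨w, hw, hinv, -⟩ := G.exists_of_sign hD hS
  have hlt := G.lt
  obtain ⟨Z, hZ, hZe⟩ := hw.exists_cyc (p := Y.dim) (by omega)
  refine ⟨Y.dim, by omega, Z, hZ, fun a ha => ?_⟩
  rw [hZe]
  exact hinv i hi hpi a ha

/-- The idempotent cut out by the sign conjecture for a general section. -/
theorem exists_cut (hD : X.IsCyc 1 D) (hS : SignStd W Y) {i : ℕ} (hi : i < Y.dim)
    (hpi : i % 2 ≠ Y.dim % 2) : ∃ f, Cut W X i f := by
  obtain ⟨w, hw, hinv, m, hm, hpm, hcomp⟩ := G.exists_of_sign hD hS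
  have hlt := G.lt
  have hOA := rop_opAlg (W := W) (X := X)
  have hmK : (m : W.K) ≠ 0 := by exact_mod_cast hm
  set r := X.dim - Y.dim with hr
  set L : Module.End W.K (W.H X) := lop W X D ^ r with hL
  set pY : Module.End W.K (W.H Y) :=
    (2 : W.K)⁻¹ • (1 - (-1 : W.K) ^ Y.dim • par (W.isInternal Y)) with hpY
  have hsq := neg_one_sq W.K Y.dim
  have hpp : par (W.isInternal Y) * par (W.isInternal Y) = 1 := par_mul_par _
  have h2 : (2 : W.K) ≠ 0 := two_ne_zero
  have hpY2 : pY * pY = pY := by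
    have h1 : (1 - (-1 : W.K) ^ Y.dim • par (W.isInternal Y)) *
        (1 - (-1 : W.K) ^ Y.dim • par (W.isInternal Y)) =
        (2 : W.K) • (1 - (-1 : W.K) ^ Y.dim • par (W.isInternal Y)) := by
      rw [sub_mul, mul_sub, mul_sub, one_mul, one_mul, mul_one, smul_mul_smul_comm, hpp, hsq,
        two_smul, one_smul]
      abel
    rw [hpY, smul_mul_smul_comm, h1, smul_smul]
    congr 1
    field_simp
  have hparY : par (W.isInternal Y) * pY = -(-1 : W.K) ^ Y.dim • pY := by
    rw [hpY, mul_smul_comm, mul_sub, mul_one, mul_smul_comm, hpp]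
    have h1 : -(-1 : W.K) ^ Y.dim • (1 - (-1 : W.K) ^ Y.dim • par (W.isInternal Y)) =
        par (W.isInternal Y) - (-1 : W.K) ^ Y.dim • (1 : Module.End W.K (W.H Y)) := by
      rw [smul_sub, smul_smul, neg_mul, hsq, neg_smul, neg_smul, one_smul]
      abel
    rw [smul_comm, h1]
  have hcomp' : (W.map j).toLinearMap ∘ₗ w ∘ₗ W.push j = (m : W.K) • pY := by
    rw [hcomp, hpY, smul_smul]
  -- the composition of the push-forward and the pull-back
  have hjj : W.push j ∘ₗ (W.map j).toLinearMap = (m : W.K) • L := by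
    apply LinearMap.ext
    intro a
    rw [LinearMap.comp_apply, AlgHom.toLinearMap_apply, hpm, LinearMap.smul_apply, hL,
      lop_pow_apply]
  set u : Module.End W.K (W.H X) := w * L with hu
  have huR : ROp W X 0 u :=
    hOA.cast (hOA.mul (rop_iff.2 hw) (lop_rop (W := W) hD r)) (by omega)
  -- the formula for the square
  have huu : (m : W.K) • (u * u) =
      w ∘ₗ W.push j ∘ₗ pY ∘ₗ (W.map j).toLinearMap := by
    have e1 : (m : W.K) • (m : W.K) • (u * u) =
        (m : W.K) • (w ∘ₗ W.push j ∘ₗ pY ∘ₗ (W.map j).toLinearMap) := by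
      have e2 : (m : W.K) • (m : W.K) • (u * u) = (w * ((m : W.K) • L)) * (w * ((m : W.K) • L)) := by
        rw [hu, mul_smul_comm, smul_mul_smul_comm, smul_smul]
      rw [e2, ← hjj]
      apply LinearMap.ext
      intro a
      have e3 := congrArg (fun F => F (W.map j a)) hcomp'
      simp only [LinearMap.comp_apply, LinearMap.smul_apply, AlgHom.toLinearMap_apply] at e3
      simp only [Module.End.mul_apply, LinearMap.comp_apply, LinearMap.smul_apply,
        AlgHom.toLinearMap_apply]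
      rw [e3, map_smul, map_smul]
    exact smul_right_injective _ hmK e1
  have huuf : u * u = (m : W.K)⁻¹ • (w ∘ₗ W.push j ∘ₗ pY ∘ₗ (W.map j).toLinearMap) := by
    rw [← huu, smul_smul, inv_mul_cancel₀ hmK, one_smul]
  have hidem : (u * u) * (u * u) = u * u := by
    nth_rewrite 1 2 [huuf]
    rw [smul_mul_smul_comm]
    have e1 : (w ∘ₗ W.push j ∘ₗ pY ∘ₗ (W.map j).toLinearMap) *
        (w ∘ₗ W.push j ∘ₗ pY ∘ₗ (W.map j).toLinearMap) =
        (m : W.K) • (w ∘ₗ W.push j ∘ₗ pY ∘ₗ (W.map j).toLinearMap) := by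
      apply LinearMap.ext
      intro a
      have e3 := congrArg (fun F => F (pY (W.map j a))) hcomp'
      simp only [LinearMap.comp_apply, LinearMap.smul_apply, AlgHom.toLinearMap_apply] at e3
      have e4 : ∀ b, pY (pY b) = pY b := fun b => congrArg (fun F => F b) hpY2
      simp only [Module.End.mul_apply, LinearMap.comp_apply, LinearMap.smul_apply,
        AlgHom.toLinearMap_apply]
      rw [e3, map_smul, map_smul, map_smul, e4, e4]
    rw [e1, smul_smul, mul_assoc, inv_mul_cancel₀ hmK, mul_one, ← huuf]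
  refine ⟨u * u, hOA.cast (hOA.mul huR huR) (by ring), hidem, ?_, ?_⟩
  · have hσ : (-1 : W.K) ^ i = -(-1 : W.K) ^ Y.dim := by
      rcases Nat.even_or_odd i with h | h <;> rcases Nat.even_or_odd Y.dim with h' | h'
      · rw [Nat.even_iff] at h h'; omega
      · rw [h.neg_one_pow, h'.neg_one_pow, neg_neg]
      · rw [h.neg_one_pow, h'.neg_one_pow]
      · rw [Nat.odd_iff] at h h'; omega
    rw [huuf, mul_smul_comm, hσ, smul_comm]
    congr 1
    apply LinearMap.ext
    intro a
    have e1 := par_comp (W := W) hw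
    have e2 := par_comp (W := W) (qop_push (W := W) j)
    have e1' : ∀ b, par (W.isInternal X) (w b) = w (par (W.isInternal X) b) :=
      fun b => congrArg (fun F => F b) e1
    have e2' : ∀ b, par (W.isInternal X) (W.push j b) = W.push j (par (W.isInternal Y) b) :=
      fun b => congrArg (fun F => F b) e2
    have e3 : ∀ b, par (W.isInternal Y) (pY b) = (-(-1 : W.K) ^ Y.dim) • pY b :=
      fun b => congrArg (fun F => F b) hparY
    simp only [Module.End.mul_apply, LinearMap.comp_apply, LinearMap.smul_apply,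
      AlgHom.toLinearMap_apply]
    rw [e1', e2', e3, map_smul, map_smul]
  · intro a ha
    have h1 : u a = a := by
      rw [hu, Module.End.mul_apply, hL, lop_pow_apply]
      exact hinv i hi hpi a ha
    rw [Module.End.mul_apply, h1, h1]

end GeneralSection

end Pool.Agent.J4H44.BM
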