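import Pool.Agent.J4H44.BM.Main

/-!
# General sections: the conjectures B and C
-/

open CategoryTheory AlgebraicGeometry Finset

universe u v

namespace Pool.Agent.J4H44.BM

open Pool.Agent.H914 VarClass Obj WeilCohomology Pool.Agent.H447 Pool.Agent.W534

variable {k : Type u} [Field k] {𝒱 : VarClass k} {ops : CycleOps 𝒱}
  {W : WeilCohomology.{u, v} ops} {X Y : 𝒱.Obj} {j : Y ⟶ X} {D : X.Cycles}

lemma leftInv_iff {i s : ℕ} (hs : s ≤ X.dim) : LeftInvAlg W X D i s ↔
    ∃ w : Module.End W.K (W.H X), QOp W X X (-s) w ∧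
      ∀ a ∈ W.gr X i, w (W.cl X D ^ s * a) = a := by
  constructor
  · rintro ⟨c, hc, Z, hZ, h⟩
    exact ⟨_, QOp.gen (p := c) (by omega) hZ, h⟩
  · rintro ⟨w, hw, h⟩
    obtain ⟨Z, hZ, rfl⟩ := hw.exists_cyc (p := X.dim - s) (by omega)
    exact ⟨X.dim - s, by omega, Z, hZ, h⟩

lemma map_pow_mul (j : Y ⟶ X) (s : ℕ) (a : W.H X) :
    W.map j (W.cl X D ^ s * a) = W.cl Y (ops.pull j D) ^ s * W.map j a := by
  rw [map_mul (W.map j), map_pow, W.cl_pull]

namespace GeneralSection

variable (G : GeneralSection W j D)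
include G

/-- **Left inverses on a general section and on the ambient variety.** -/
theorem leftInv_iff (hD : X.IsCyc 1 D) {i s : ℕ} (hi : i < Y.dim) (hs : 1 ≤ s)
    (hsY : s ≤ Y.dim) : LeftInvAlg W Y (ops.pull j D) i s ↔
      LeftInvAlg W X D i (s + (X.dim - Y.dim)) := by
  have hlt := G.lt
  obtain ⟨m, hm, hpm⟩ := G.push_map
  have hmK : (m : W.K) ≠ 0 := by exact_mod_cast hm
  rw [BM.leftInv_iff (by omega), BM.leftInv_iff (by omega)]
  constructor
  · rintro ⟨w, hw, hinv⟩
    obtain ⟨Z, hZ, rfl⟩ := hw.exists_cyc (p := Y.dim - s) (by omega)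
    obtain ⟨z, hz, hcl⟩ := G.low _ (by omega) Z hZ
    refine ⟨(m : W.K) • W.corr (W.cl _ z), (QOp.gen (p := Y.dim - s) (by omega) hz).smul m,
      fun a ha => ?_⟩
    have h1 := hinv _ (W.map_mem j ha)
    rw [hcl, corr_sqMap, ← map_pow_mul, LinearMap.comp_apply, LinearMap.comp_apply, hpm,
      AlgHom.toLinearMap_apply, ← mul_assoc, ← pow_add, add_comm (X.dim - Y.dim)] at h1
    have h2 : W.map j ((m : W.K) • (W.corr (W.cl (X.prod X) z)) (W.cl X D ^ (s + (X.dim - Y.dim))
        * a) - a) = 0 := by
      rw [map_sub, map_smul, ← h1, map_smul, map_smul, sub_self]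
    have h3 : (W.corr (W.cl (X.prod X) z)) (W.cl X D ^ (s + (X.dim - Y.dim)) * a) ∈ W.gr X i :=
      op_mem (QOp.gen (d := -((s + (X.dim - Y.dim) : ℕ) : ℤ)) (p := Y.dim - s) (by omega) hz)
        (lop_mem hD ha) (by omega)
    have h4 := G.inj i hi _ (Submodule.sub_mem _ (Submodule.smul_mem _ _ h3) ha) h2
    rw [LinearMap.smul_apply]
    exact sub_eq_zero.1 h4
  · rintro ⟨w, hw, hinv⟩
    refine ⟨((m⁻¹ : ℚ) : W.K) • ((W.map j).toLinearMap ∘ₗ w ∘ₗ W.push j), ?_, fun b hb => ?_⟩
    · exact (((qop_pull (W := W) j).comp (hw.comp (qop_push (W := W) j))).smul _).cast (by omega)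
    · obtain ⟨a, ha, rfl⟩ := G.surj i hi b hb
      rw [← map_pow_mul, LinearMap.smul_apply, LinearMap.comp_apply, LinearMap.comp_apply, hpm,
        ← mul_assoc, ← pow_add, add_comm (X.dim - Y.dim), map_smul, hinv a ha,
        AlgHom.toLinearMap_apply, map_smul, smul_smul]
      push_cast
      rw [inv_mul_cancel₀ hmK, one_smul]

end GeneralSection

/-! ### Künneth components -/

lemma kunnethAt_iff {i : ℕ} : KunnethAt W X i ↔ ROp W X 0 (proj (W.isInternal X) i) := by
  constructor
  · rintro ⟨P, hP, hP'⟩
    have h1 : W.corr (W.cl _ P) = proj (W.isInternal X) i := by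
      apply gr_ext (W.isInternal X)
      intro l a ha
      rw [hP' l a ha]
      split_ifs with hl
      · subst hl; rw [proj_same _ ha]
      · rw [proj_ne _ ha hl]
    rw [← h1]
    exact rop_corr (p := X.dim) (by simp) hP
  · intro h
    obtain ⟨P, hP, hPe⟩ := exists_of_rop (p := X.dim) (by simp) h
    refine ⟨P, hP, fun l a ha => ?_⟩
    rw [hPe]
    split_ifs with hl
    · subst hl; rw [proj_same _ ha]
    · rw [proj_ne _ ha hl]

lemma kunnethStd_iff : KunnethStd W X ↔ ∀ i, KunnethAt W X i := Iff.rfl

/-- The transpose of a Künneth component. -/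
lemma kunnethAt_symm {i : ℕ} (hi : i ≤ 2 * X.dim) (h : KunnethAt W X i) :
    KunnethAt W X (2 * X.dim - i) := by
  obtain ⟨P, hP, hP'⟩ := h
  refine ⟨ops.pull (swap X X) P, ops.pull_mem _ hP, fun l b hb => ?_⟩
  rw [W.cl_pull]
  have key : ∀ a, W.tr X (a * W.corr (W.map (swap X X) (W.cl _ P)) b) =
      W.tr X (W.corr (W.cl _ P) a * b) := fun a => (tr_corr_swap (W.cl_mem hP) a b).symm
  split_ifs with hl
  · subst hl
    rw [← sub_eq_zero]
    apply nondeg_right
    intro a
    refine gr_induction (W.isInternal X) (p := fun a => W.tr X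
      (a * (W.corr (W.map (swap X X) (W.cl _ P)) b - b)) = 0) ?_ ?_ a
    · intro p a ha
      rw [mul_sub, map_sub, key, hP' p a ha]
      split_ifs with hp
      · rw [sub_self]
      · rw [zero_mul, map_zero, zero_sub, W.tr_eq_zero (W.mul_mem ha hb) (by omega), neg_zero]
    · intro a a' ha ha'
      rw [add_mul, map_add, ha, ha', add_zero]
  · apply nondeg_right
    intro a
    refine gr_induction (W.isInternal X) (p := fun a => W.tr X
      (a * W.corr (W.map (swap X X) (W.cl _ P)) b) = 0) ?_ ?_ a
    · intro p a ha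
      rw [key, hP' p a ha]
      split_ifs with hp
      · rw [W.tr_eq_zero (W.mul_mem ha hb) (by omega)]
      · rw [zero_mul, map_zero]
    · intro a a' ha ha'
      rw [add_mul, map_add, ha, ha', add_zero]

lemma proj_eq_zero_of_lt {i : ℕ} (hi : 2 * X.dim < i) : proj (W.isInternal X) i = 0 := by
  apply gr_ext (W.isInternal X)
  intro l a ha
  rw [LinearMap.zero_apply]
  by_cases hl : l = i
  · subst hl
    rw [W.gr_eq_bot X l hi] at ha
    rw [(Submodule.mem_bot _).1 ha, map_zero]
  · exact proj_ne _ ha hl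

/-- The Künneth components below the middle are enough. -/
lemma kunnethStd_of_low (h : ∀ i < X.dim, KunnethAt W X i) : KunnethStd W X := by
  have hOA := rop_opAlg (W := W) (X := X)
  have h1 : ∀ i, i ≠ X.dim → ROp W X 0 (proj (W.isInternal X) i) := by
    intro i hi
    rcases Nat.lt_or_ge (2 * X.dim) i with h2 | h2
    · rw [proj_eq_zero_of_lt h2]; exact hOA.zero 0
    · rcases Nat.lt_or_gt_of_ne hi with h3 | h3
      · exact kunnethAt_iff.1 (h i h3)
      · have h4 := kunnethAt_symm (by omega) (h (2 * X.dim - i) (by omega))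
        rw [show 2 * X.dim - (2 * X.dim - i) = i by omega] at h4
        exact kunnethAt_iff.1 h4
  intro i
  by_cases hi : i = X.dim
  · subst hi
    apply kunnethAt_iff.2
    have h2 := sum_proj (W.isInternal X) (N := 2 * X.dim + 1)
      (fun i hi => W.gr_eq_bot X i (by omega))
    rw [← Finset.add_sum_erase _ _ (Finset.mem_range.2 (show X.dim < 2 * X.dim + 1 by omega))] at h2
    rw [eq_sub_of_add_eq h2]
    apply hOA.sub hOA.one
    apply hOA.sum
    intro l hl
    exact h1 l (Finset.ne_of_mem_erase hl)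
  · exact kunnethAt_iff.2 (h1 i hi)

namespace GeneralSection

variable (G : GeneralSection W j D)
include G

/-- A Künneth component of a general section gives a Künneth component and a left inverse on the
ambient variety. -/
theorem of_kunnethAt (hD : X.IsCyc 1 D) {i : ℕ} (hi : i < Y.dim) (h : KunnethAt W Y i) :
    KunnethAt W X i ∧ LeftInvAlg W X D i (X.dim - Y.dim) := by
  have hlt := G.lt
  have hOA := rop_opAlg (W := W) (X := X)
  obtain ⟨a, w, hw, hπ⟩ := G.exists_op (rop_iff.1 (kunnethAt_iff.1 h))
  obtain ⟨m, hm, hpm⟩ := G.push_map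
  have hmK : (m : W.K) ≠ 0 := by exact_mod_cast hm
  obtain ⟨v, hv, hv0, hjv⟩ := G.van
  have ha : (a : W.K) = 0 := by
    have h1 := congrArg (fun F => F v) hπ
    simp only [LinearMap.add_apply, LinearMap.comp_apply, LinearMap.smul_apply, hjv, map_zero,
      add_zero, Module.End.one_apply] at h1
    rw [proj_ne _ hv (by omega)] at h1
    exact (smul_eq_zero.1 h1.symm).resolve_right hv0
  rw [ha, zero_smul, zero_add] at hπ
  set r := X.dim - Y.dim with hr
  set w' : Module.End W.K (W.H X) := (m : W.K) • w with hw'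
  have hw'q : QOp W X X ((Y.dim : ℤ) - X.dim) w' := hw.smul m
  have key : ∀ l < Y.dim, ∀ x ∈ W.gr X l, w' (W.cl X D ^ r * x) = if l = i then x else 0 := by
    intro l hl x hx
    have h1 := congrArg (fun F => F (W.map j x)) hπ
    simp only [LinearMap.comp_apply, AlgHom.toLinearMap_apply] at h1
    rw [hpm, map_smul, map_smul] at h1
    have h2 : w' (W.cl X D ^ r * x) ∈ W.gr X l := op_mem hw'q (lop_mem hD hx) (by omega)
    have h3 : proj (W.isInternal Y) i (W.map j x) = W.map j (if l = i then x else 0) := by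
      split_ifs with hli
      · subst hli; rw [proj_same _ (W.map_mem j hx)]
      · rw [proj_ne _ (W.map_mem j hx) hli, map_zero]
    have h4 : (if l = i then x else 0) ∈ W.gr X l := by
      split_ifs
      · exact hx
      · exact Submodule.zero_mem _
    have h5 := G.inj l hl _ (Submodule.sub_mem _ h2 h4) (by
      rw [map_sub, ← h3, h1, hw', LinearMap.smul_apply, map_smul, sub_self])
    exact sub_eq_zero.1 h5
  constructor
  · -- the square of `w' L ^ r` is the projector
    set u : Module.End W.K (W.H X) := w' * lop W X D ^ r with hu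
    have huR : ROp W X 0 u :=
      hOA.cast (hOA.mul (rop_iff.2 hw'q) (lop_rop (W := W) hD r)) (by omega)
    have huu : u * u = proj (W.isInternal X) i := by
      have e2 : ∀ y, (m : W.K) • u y = w' (W.push j (W.map j y)) := by
        intro y
        rw [hu, Module.End.mul_apply, lop_pow_apply, hpm, map_smul]
      have e5 : ∀ y, (m : W.K) • u (u y) =
          w' (W.push j (proj (W.isInternal Y) i (W.map j y))) := by
        intro y
        have e3 : W.map j (w' (W.push j (W.map j y))) =
            (m : W.K) • proj (W.isInternal Y) i (W.map j y) := by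
          rw [hw', LinearMap.smul_apply, map_smul]
          congr 1
          exact (congrArg (fun F => F (W.map j y)) hπ).symm
        have e4 : (m : W.K) • (m : W.K) • u (u y) =
            (m : W.K) • w' (W.push j (proj (W.isInternal Y) i (W.map j y))) := by
          rw [← map_smul u, e2, e2, e3, map_smul, map_smul]
        exact smul_right_injective _ hmK e4
      apply gr_ext (W.isInternal X)
      intro l x hx
      rw [Module.End.mul_apply]
      by_cases hl : l = i
      · subst hl
        have h1 : u x = x := by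
          rw [hu, Module.End.mul_apply, lop_pow_apply, key l hi x hx, if_pos rfl]
        rw [h1, h1, proj_same _ hx]
      · rw [proj_ne _ hx hl]
        apply smul_right_injective _ hmK
        simp only
        rw [e5, proj_ne _ (W.map_mem j hx) hl, map_zero, map_zero, smul_zero]
    rw [kunnethAt_iff, ← huu]
    exact hOA.cast (hOA.mul huR huR) (by ring)
  · rw [BM.leftInv_iff (by omega)]
    refine ⟨w', hw'q.cast (by omega), fun x hx => ?_⟩
    rw [key i hi x hx, if_pos rfl]

end GeneralSection

end Pool.Agent.J4H44.BM
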