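import Pool.Agent.J4H44.BM.NilC
import Pool.Agent.J4H44.BM.Kun

/-!
# General sections of products of two varieties
-/

open CategoryTheory AlgebraicGeometry Finset Module

universe u v

namespace Pool.Agent.J4H44.BM

open Pool.Agent.H914 Pool.Agent.H447 VarClass Obj WeilCohomology Pool.Agent.N190.CB
  Pool.Agent.W534

variable {k : Type u} [Field k] {𝒱 : VarClass k} {ops : CycleOps 𝒱}
  {W : WeilCohomology.{u, v} ops} {X Y Z : 𝒱.Obj}

/-- A failure in the strong sense is a failure, if there is a parity idempotent. -/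
theorem not_leftInvK_of_badK_cut {D : X.Cycles} {i s : ℕ} {f : Module.End W.K (W.H X)}
    (hf : Cut W X i f) (h : BadK W X D i s) : ¬ LeftInvK W X D i s := by
  intro hinv0
  obtain ⟨w, hw, hinv⟩ : ∃ w : Module.End W.K (W.H X), KR W X (-s) w ∧
      ∀ a ∈ W.gr X i, w ((lop W X D ^ s) a) = a := by
    obtain ⟨c, hc, -⟩ := id hinv0
    exact (leftInvK_iff (by omega)).1 hinv0
  obtain ⟨e, heR, hee, hnum, u, hu, hu0, heu⟩ := h
  have hOA := kr_opAlg (W := W) (X := X)
  have hM : KNum W X 0 (f * (e * (w * (lop W X D ^ s * e)))) := by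
    have h1 := NumR.mul_left kr_opAlg hw hnum
    have h2 := NumR.mul_left kr_opAlg heR h1
    have h3 := NumR.mul_left kr_opAlg (ROp.kr hf.mem) h2
    exact h3.cast (by ring)
  set M := f * (e * (w * (lop W X D ^ s * e))) with hMd
  have hpM : par (W.isInternal X) * M = (-1 : W.K) ^ i • M := by
    rw [hMd, ← mul_assoc, hf.par, smul_mul_assoc]
  have hnil : IsNilpotent M := by
    apply isNilpotent_of_trace_pow
    intro r
    have h1 := hM.2 (M ^ r) (hOA.cast (hOA.pow hM.1 r) (by ring))
    rw [← mul_assoc, hpM, smul_mul_assoc, ← pow_succ', map_smul, smul_eq_mul] at h1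
    exact (mul_eq_zero.1 h1).resolve_left (pow_ne_zero _ (neg_ne_zero.2 one_ne_zero))
  have hMu : M u = u := by
    rw [hMd, Module.End.mul_apply, Module.End.mul_apply, Module.End.mul_apply,
      Module.End.mul_apply, heu, hinv u hu, heu, hf.id_on u hu]
  obtain ⟨N, hN⟩ := hnil
  have hpow : ∀ n : ℕ, (M ^ n) u = u := by
    intro n
    induction n with
    | zero => rw [pow_zero, Module.End.one_apply]
    | succ n ih => rw [pow_succ, Module.End.mul_apply, hMu, ih]
  apply hu0
  rw [← hpow N, hN, LinearMap.zero_apply]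

/-- The dichotomy for products, with a parity idempotent on the product. -/
theorem dichotomyK_cut {D : X.Cycles} {E : Y.Cycles} (hD : X.IsCyc 1 D) (hE : Y.IsCyc 1 E)
    {i j s t : ℕ} (hsX : s ≤ X.dim) (ht : 1 ≤ t) (htY : t ≤ Y.dim)
    {f : Module.End W.K (W.H (X.prod Y))} (hf : Cut W (X.prod Y) (i + j) f)
    (h : LeftInvK W (X.prod Y) (boxCyc ops D E) (i + j) (s + t - 1)) :
    LeftInvK W X D i s ∨ LeftInvK W Y E j t := by
  by_contra hcon
  push Not at hcon
  exact not_leftInvK_of_badK_cut hf (badK_prod hD hE ht (badK_of_not hD hsX hcon.1)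
    (badK_of_not hE htY hcon.2)) h

/-- A Künneth component is a parity idempotent. -/
lemma cut_of_kunnethAt {i : ℕ} (h : KunnethAt W X i) : Cut W X i (proj (W.isInternal X) i) where
  mem := kunnethAt_iff.1 h
  idem := by
    apply gr_ext (W.isInternal X)
    intro l a ha
    rw [Module.End.mul_apply]
    by_cases hl : l = i
    · subst hl; rw [proj_same _ ha, proj_same _ ha]
    · rw [proj_ne _ ha hl, map_zero]
  par := by
    apply gr_ext (W.isInternal X)
    intro l a ha
    rw [Module.End.mul_apply, LinearMap.smul_apply]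
    by_cases hl : l = i
    · subst hl; rw [proj_same _ ha, par, scal_apply _ _ ha]
    · rw [proj_ne _ ha hl, map_zero, smul_zero]
  id_on a ha := proj_same _ ha

/-- **General sections of products.** -/
theorem leftInvK_or_of_section {D : X.Cycles} {E : Y.Cycles} (hD : X.IsCyc 1 D)
    (hE : Y.IsCyc 1 E) {i j : ℕ} (hi : i < X.dim) (hj : j < Y.dim) {φ : Z ⟶ X.prod Y}
    (hZ : Z.dim = i + j + 1) (G : GeneralSection W φ (boxCyc ops D E))
    (h : SignStd W Z ∨ KunnethAt W Z (i + j)) :
    LeftInvK W X D i (X.dim - i) ∨ LeftInvK W Y E j (Y.dim - j) := by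
  have hbox := boxCyc_mem (ops := ops) hD hE
  obtain ⟨⟨f, hf⟩, h1⟩ : (∃ f, Cut W (X.prod Y) (i + j) f) ∧
      LeftInvAlg W (X.prod Y) (boxCyc ops D E) (i + j) ((X.prod Y).dim - Z.dim) := by
    rcases h with hS | hK
    · exact ⟨G.exists_cut hbox hS (by omega) (by omega), G.leftInv hbox hS (by omega) (by omega)⟩
    · obtain ⟨h2, h3⟩ := G.of_kunnethAt hbox (by omega) hK
      exact ⟨⟨_, cut_of_kunnethAt h2⟩, h3⟩
  rw [dim_prod, hZ, show X.dim + Y.dim - (i + j + 1) = (X.dim - i) + (Y.dim - j) - 1 by omega] at h1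
  exact dichotomyK_cut hD hE (Nat.sub_le _ _) (by omega) (Nat.sub_le _ _) hf h1.leftInvK

lemma kunneth_of_lefschetzB {D : X.Cycles} (hD : X.IsCyc 1 D) (hHL : HardLefschetz W X D)
    (hB : LefschetzB W X D) : KunnethStd W X := by
  obtain ⟨Φ, hΦ, hLam⟩ := lefschetzB_iff_rop.1 hB
  intro i
  exact kunnethAt_iff.2 (rop_opAlg.proj_mem (W.isInternal X) W_hbd
    (rop_mulLeft (W := W) hD) hHL hΦ hLam i)

lemma sign_of_kunnethStd (h : KunnethStd W X) : SignStd W X :=
  sign_of_kunneth fun i => kunnethAt_iff.1 (h i)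

/-- Hard Lefschetz passes to general sections. -/
theorem GeneralSection.hardLefschetz {j : Y ⟶ X} {D : X.Cycles} (G : GeneralSection W j D)
    (hD : X.IsCyc 1 D) (hHL : HardLefschetz W X D) : HardLefschetz W Y (ops.pull j D) := by
  have hlt := G.lt
  have hDY := ops.pull_mem (f := j) hD
  obtain ⟨m, hm, hpm⟩ := G.push_map
  have hmK : (m : W.K) ≠ 0 := by exact_mod_cast hm
  have hinj : ∀ i ≤ Y.dim, ∀ a ∈ W.gr Y i,
      (LinearMap.mulLeft W.K (W.cl Y (ops.pull j D)) ^ (Y.dim - i)) a = 0 → a = 0 := by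
    intro i hi a ha h0
    rcases Nat.lt_or_ge i Y.dim with h1 | h1
    · obtain ⟨b, hb, rfl⟩ := G.surj i h1 a ha
      have h2 : W.map j (W.cl X D ^ (Y.dim - i) * b) = 0 := by
        rw [map_pow_mul, ← lop_pow_apply]
        exact h0
      have h3 := hpm (W.cl X D ^ (Y.dim - i) * b)
      rw [h2, map_zero, ← mul_assoc, ← pow_add] at h3
      have h4 := (smul_eq_zero.1 h3.symm).resolve_left hmK
      have h5 := (hHL i (by omega)).1 b hb (by
        have h6 := lop_pow_apply (W := W) D (X.dim - i) b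
        rw [show X.dim - i = X.dim - Y.dim + (Y.dim - i) by omega] at h6 ⊢
        rw [h4] at h6
        exact h6)
      rw [h5, map_zero]
    · rw [show Y.dim - i = 0 by omega] at h0
      simpa using h0
  refine fun i hi => ⟨hinj i hi, ?_⟩
  have hmem : ∀ x ∈ W.gr Y i,
      (LinearMap.mulLeft W.K (W.cl Y (ops.pull j D)) ^ (Y.dim - i)) x ∈
        W.gr Y (2 * Y.dim - i) := by
    intro x hx
    have h1 := lop_mem (s := Y.dim - i) hDY hx
    rw [← lop_pow_apply, show i + 2 * (Y.dim - i) = 2 * Y.dim - i by omega] at h1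
    exact h1
  exact surj_of_finrank_eq hmem (hinj i hi) (betti_symm W hi).symm

/-- The conjecture B passes to general sections. -/
theorem GeneralSection.lefschetzB {j : Y ⟶ X} {D : X.Cycles} (G : GeneralSection W j D)
    (hD : X.IsCyc 1 D) (hHL : HardLefschetz W X D) (hB : LefschetzB W X D) :
    LefschetzB W Y (ops.pull j D) := by
  have hlt := G.lt
  have h1 : ∀ i < Y.dim, LeftInvAlg W Y (ops.pull j D) i (Y.dim - i) := by
    intro i hi
    rw [G.leftInv_iff hD hi (by omega) (Nat.sub_le _ _)]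
    exact leftInvAlg_of_lefschetzB hD hHL hB (by omega)
  exact lefschetzB_of_leftInv (ops.pull_mem _ hD) h1

/-- **The conjecture B for a variety and the standard conjectures for general sections of its
square.** -/
theorem square_tfae {D : X.Cycles} (hD : X.IsCyc 1 D) (hHL : HardLefschetz W X D)
    (Z : ℕ → 𝒱.Obj) (φ : ∀ m, Z m ⟶ X.prod X)
    (hZ : ∀ m < X.dim, (Z m).dim = 2 * m + 1 ∧ GeneralSection W (φ m) (boxCyc ops D D)) :
    List.TFAE [LefschetzB W X D,
      ∀ m < X.dim, LefschetzB W (Z m) (ops.pull (φ m) (boxCyc ops D D)),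
      ∀ m < X.dim, KunnethStd W (Z m),
      ∀ m < X.dim, SignStd W (Z m),
      ∀ m < X.dim, KunnethAt W (Z m) (2 * m)] := by
  have hDD := boxCyc_mem (ops := ops) hD hD
  have hHH : HardLefschetz W (X.prod X) (boxCyc ops D D) :=
    TH125.Gal.hardLefschetz_prod hD hD hHL hHL
  tfae_have 1 → 2 := by
    intro hB m hm
    exact (hZ m hm).2.lefschetzB hDD hHH (X310.Mom.lefschetzB_prod hD hD hHL hHL hB hB)
  tfae_have 2 → 3 := by
    intro h m hm
    exact kunneth_of_lefschetzB (ops.pull_mem _ hDD) ((hZ m hm).2.hardLefschetz hDD hHH) (h m hm)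
  tfae_have 3 → 4 := fun h m hm => sign_of_kunnethStd (h m hm)
  tfae_have 3 → 5 := fun h m hm => h m hm _
  tfae_have 4 → 1 := by
    intro h
    apply lefschetzB_of_leftInvK hD hHL
    intro m hm
    rcases leftInvK_or_of_section hD hD hm hm (by rw [(hZ m hm).1]; ring) (hZ m hm).2
      (Or.inl (h m hm)) with h1 | h1
    · exact h1
    · exact h1
  tfae_have 5 → 1 := by
    intro h
    apply lefschetzB_of_leftInvK hD hHL
    intro m hm
    have h0 : KunnethAt W (Z m) (m + m) := by rw [← two_mul]; exact h m hm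
    rcases leftInvK_or_of_section hD hD hm hm (by rw [(hZ m hm).1]; ring) (hZ m hm).2
      (Or.inr h0) with h1 | h1
    · exact h1
    · exact h1
  tfae_finish

end Pool.Agent.J4H44.BM
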