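import Pool.Agent.J4H44.BM.SecDefs
import Pool.Agent.H447R3.KuDefs

/-!
# Künneth components of general sections: definitions and statements
-/

open CategoryTheory AlgebraicGeometry

universe u v

namespace Pool.Agent.J4H44.BM

open Pool.Agent.H914 VarClass Obj WeilCohomology Pool.Agent.H447

section Alg

variable {K : Type*} [Field K] {A : Type*} [Ring A] [Algebra K A]

/-- The operator `u` is the identity on `gr i` and zero on the `gr l` with `l - i` odd. -/
def SeparatesParity (gr : ℕ → Submodule K A) (i : ℕ) (u : A →ₗ[K] A) : Prop :=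
  (∀ a ∈ gr i, u a = a) ∧ ∀ l, l % 2 ≠ i % 2 → ∀ a ∈ gr l, u a = 0

end Alg

variable {k : Type u} [Field k] {𝒱 : VarClass k} {ops : CycleOps 𝒱}

/-- There is an algebraic self-correspondence of degree zero of `X` which acts as the identity on
`H^i(X)`, and as zero on the cohomology of the other parity. -/
def ParitySep (W : WeilCohomology.{u, v} ops) (X : 𝒱.Obj) (i : ℕ) : Prop :=
  ∃ P, (X.prod X).IsCyc X.dim P ∧ SeparatesParity (W.gr X) i (W.corr (W.cl (X.prod X) P))

/-- The exact criteria for the Künneth and the sign conjecture for a general section `Y` of `X`, of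
codimension `r`. -/
def SectionCriteria (W : WeilCohomology.{u, v} ops) (X Y : 𝒱.Obj) (D : X.Cycles) : Prop :=
  (∀ i < Y.dim, (KunnethAt W Y i ↔ KunnethAt W X i ∧ LeftInvAlg W X D i (X.dim - Y.dim))) ∧
  (KunnethStd W Y ↔ ∀ i < Y.dim, KunnethAt W X i ∧ LeftInvAlg W X D i (X.dim - Y.dim)) ∧
  (SignStd W Y ↔ ∀ i < Y.dim, i % 2 ≠ Y.dim % 2 →
    ParitySep W X i ∧ LeftInvAlg W X D i (X.dim - Y.dim))

/-- For `0 < m < dim X`, the variety `Y m` is a general section of `X` of dimension `m`. -/
def SectionsOfAllDims (W : WeilCohomology.{u, v} ops) (X : 𝒱.Obj) (D : X.Cycles) (Y : ℕ → 𝒱.Obj)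
    (j : ∀ m, Y m ⟶ X) : Prop :=
  ∀ m, 0 < m → m < X.dim → (Y m).dim = m ∧ GeneralSection W (j m) D

/-- All the maps `L ^ s : H^i(X) → H^(i + 2 s)(X)` with `s ≥ 1` and `i + s < n = dim X` have
algebraic left inverses. -/
def SplitBelow (W : WeilCohomology.{u, v} ops) (X : 𝒱.Obj) (D : X.Cycles) : Prop :=
  ∀ i s : ℕ, 1 ≤ s → i + s < X.dim → LeftInvAlg W X D i s

/-- The Künneth components `π_i` of `X` with `i < n - 1`, `n = dim X`, are algebraic. -/
def KunnethLow (W : WeilCohomology.{u, v} ops) (X : 𝒱.Obj) : Prop :=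
  ∀ i, i + 1 < X.dim → KunnethAt W X i

/-- The equivalence of the Künneth conjecture for all the sections `Y m`, the sign conjecture for
all of them, and the splitting of the powers of `L` below the middle on `X`. -/
def FlagStatement (W : WeilCohomology.{u, v} ops) (X : 𝒱.Obj) (D : X.Cycles) (Y : ℕ → 𝒱.Obj) :
    Prop :=
  List.TFAE [
    ∀ m, 0 < m → m < X.dim → KunnethStd W (Y m),
    KunnethLow W X ∧ ∀ m, 0 < m → m < X.dim → SignStd W (Y m),
    KunnethLow W X ∧ SplitBelow W X D]

end Pool.Agent.J4H44.BM
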