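import Pool.Agent.J4H44.BM.Sq
import Pool.Agent.J4H44.BM.FlagDefs

/-!
# General sections: exact criteria for the Künneth and the sign conjecture
-/

open CategoryTheory AlgebraicGeometry Finset Module

universe u v

namespace Pool.Agent.J4H44.BM

open Pool.Agent.H914 Pool.Agent.H447 VarClass Obj WeilCohomology Pool.Agent.N190.CB
  Pool.Agent.W534

variable {k : Type u} [Field k] {𝒱 : VarClass k} {ops : CycleOps 𝒱}
  {W : WeilCohomology.{u, v} ops} {X Y : 𝒱.Obj} {j : Y ⟶ X} {D : X.Cycles}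

/-- The operator `j^* w j_*` for an operator `w` of pure degree. -/
lemma GeneralSection.qop_restrict (G : GeneralSection W j D) {w : Module.End W.K (W.H X)}
    (hw : QOp W X X (-((X.dim - Y.dim : ℕ) : ℤ)) w) :
    QOp W Y Y 0 ((W.map j).toLinearMap ∘ₗ w ∘ₗ W.push j) := by
  have hlt := G.lt
  exact ((qop_pull (W := W) j).comp (hw.comp (qop_push (W := W) j))).cast (by omega)

/-- A Künneth component of a general section from a Künneth component and a left inverse on the
ambient variety. -/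
theorem GeneralSection.kunnethAt_of (G : GeneralSection W j D) (hD : X.IsCyc 1 D) {i : ℕ}
    (hi : i < Y.dim) (hK : KunnethAt W X i) (hL : LeftInvAlg W X D i (X.dim - Y.dim)) :
    KunnethAt W Y i := by
  have hlt := G.lt
  obtain ⟨m, hm, hpm⟩ := G.push_map
  have hmK : (m : W.K) ≠ 0 := by exact_mod_cast hm
  obtain ⟨w, hw, hinv⟩ := (BM.leftInv_iff (Nat.sub_le _ _)).1 hL
  set π := proj (W.isInternal X) i with hπ
  have hπR := kunnethAt_iff.1 hK
  set z : Module.End W.K (W.H Y) :=
    ((m⁻¹ : ℚ) : W.K) • ((W.map j).toLinearMap ∘ₗ (π * w) ∘ₗ W.push j) with hz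
  have hzR : ROp W Y 0 z := by
    rw [rop_iff]
    refine (G.qop_restrict ?_).smul _
    exact ((rop_iff.1 hπR).comp hw).cast (by ring)
  have hze : z = proj (W.isInternal Y) i := by
    apply gr_ext (W.isInternal Y)
    intro l y hy
    by_cases hl : l = i
    · subst hl
      obtain ⟨a, ha, rfl⟩ := G.surj l hi y hy
      rw [proj_same _ hy, hz, LinearMap.smul_apply, LinearMap.comp_apply, LinearMap.comp_apply,
        hpm, map_smul, Module.End.mul_apply, hinv a ha, hπ, proj_same _ ha,
        AlgHom.toLinearMap_apply, map_smul, smul_smul]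
      push_cast
      rw [inv_mul_cancel₀ hmK, one_smul]
    · rw [proj_ne _ hy hl, hz, LinearMap.smul_apply, LinearMap.comp_apply, LinearMap.comp_apply,
        Module.End.mul_apply]
      have h1 : w (W.push j y) ∈ W.gr X l := by
        refine op_mem (φ := w ∘ₗ W.push j) (d := 0) ?_ hy (by ring)
        exact (hw.comp (qop_push (W := W) j)).cast (by omega)
      rw [hπ, proj_ne _ h1 hl, map_zero, smul_zero]
  rw [kunnethAt_iff, ← hze]
  exact hzR

/-- **The Künneth components of a general section.** -/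
theorem GeneralSection.kunnethAt_iff (G : GeneralSection W j D) (hD : X.IsCyc 1 D) {i : ℕ}
    (hi : i < Y.dim) :
    KunnethAt W Y i ↔ KunnethAt W X i ∧ LeftInvAlg W X D i (X.dim - Y.dim) :=
  ⟨G.of_kunnethAt hD hi, fun h => G.kunnethAt_of hD hi h.1 h.2⟩

/-- **The Künneth conjecture for a general section.** -/
theorem GeneralSection.kunnethStd_iff (G : GeneralSection W j D) (hD : X.IsCyc 1 D) :
    KunnethStd W Y ↔ ∀ i < Y.dim, KunnethAt W X i ∧ LeftInvAlg W X D i (X.dim - Y.dim) :=
  ⟨fun h i hi => (G.kunnethAt_iff hD hi).1 (h i),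
    fun h => kunnethStd_of_low fun i hi => (G.kunnethAt_iff hD hi).2 (h i hi)⟩

/-- Products of operators of the form `1 - u`. -/
lemma exists_common {K : Type*} [Field K] {V : Type*} [AddCommGroup V] [Module K V]
    {gr : ℕ → Submodule K V} (S : Finset ℕ) (P : Module.End K V → Prop) (L : Module.End K V)
    (h0 : P 0) (hadd : ∀ a b, P a → P b → P (a + b)) (hneg : ∀ a, P a → P (-a))
    (hmul : ∀ a b, P a → P b → P (a * L * b))
    (hgr : ∀ a, P a → ∀ l ∈ S, ∀ x ∈ gr l, (a * L) x ∈ gr l)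
    (h : ∀ i ∈ S, ∃ a, P a ∧ ∀ x ∈ gr i, (a * L) x = x) :
    ∃ a, P a ∧ ∀ i ∈ S, ∀ x ∈ gr i, (a * L) x = x := by
  classical
  induction S using Finset.induction_on with
  | empty => exact ⟨0, h0, by simp⟩
  | insert i S hi ih =>
    obtain ⟨a, ha, ha'⟩ := ih (fun a ha l hl => hgr a ha l (Finset.mem_insert_of_mem hl))
      (fun l hl => h l (Finset.mem_insert_of_mem hl))
    obtain ⟨b, hb, hb'⟩ := h i (Finset.mem_insert_self _ _)
    refine ⟨a + b + -(a * L * b), hadd _ _ (hadd _ _ ha hb) (hneg _ (hmul _ _ ha hb)), ?_⟩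
    intro l hl x hx
    have e1 : (a + b + -(a * L * b)) * L = 1 - (1 - a * L) * (1 - b * L) := by noncomm_ring
    rw [e1, LinearMap.sub_apply, Module.End.one_apply, Module.End.mul_apply]
    rw [Finset.mem_insert] at hl
    rcases hl with rfl | hl
    · have h1 : (1 - b * L) x = 0 := by
        rw [LinearMap.sub_apply, Module.End.one_apply, hb' x hx, sub_self]
      rw [h1, map_zero, sub_zero]
    · have h1 : (1 - b * L) x ∈ gr l := by
        rw [LinearMap.sub_apply, Module.End.one_apply]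
        exact Submodule.sub_mem _ hx (hgr b hb l (Finset.mem_insert_of_mem hl) x hx)
      have h2 : (1 - a * L) ((1 - b * L) x) = 0 := by
        rw [LinearMap.sub_apply, Module.End.one_apply, ha' l hl _ h1, sub_self]
      rw [h2, sub_zero]

lemma paritySep_iff {i : ℕ} : ParitySep W X i ↔ ∃ u, ROp W X 0 u ∧ (∀ a ∈ W.gr X i, u a = a) ∧
    ∀ l, l % 2 ≠ i % 2 → ∀ a ∈ W.gr X l, u a = 0 := by
  constructor
  · rintro ⟨P, hP, h1, h2⟩
    exact ⟨_, rop_corr (p := X.dim) (by simp) hP, h1, h2⟩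
  · rintro ⟨u, hu, h1, h2⟩
    obtain ⟨P, hP, rfl⟩ := exists_of_rop (p := X.dim) (by simp) hu
    exact ⟨P, hP, h1, h2⟩

lemma neg_one_pow_ne {K : Type*} [Field K] [CharZero K] {i l : ℕ} (h : l % 2 ≠ i % 2) :
    (-1 : K) ^ i ≠ (-1 : K) ^ l := by
  have h1 : (-1 : K) ≠ 1 := by
    intro h2
    have : (2 : K) = 0 := by
      calc (2 : K) = 1 - (-1) := by ring
        _ = 0 := by rw [h2]; ring
    exact two_ne_zero this
  rcases Nat.even_or_odd i with hi | hi <;> rcases Nat.even_or_odd l with hl | hl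
  · rw [Nat.even_iff] at hi hl; omega
  · rw [hi.neg_one_pow, hl.neg_one_pow]; exact h1.symm
  · rw [hi.neg_one_pow, hl.neg_one_pow]; exact h1
  · rw [Nat.odd_iff] at hi hl; omega

lemma Cut.paritySep {i : ℕ} {f : Module.End W.K (W.H X)} (hf : Cut W X i f) :
    ParitySep W X i := by
  rw [paritySep_iff]
  refine ⟨f, hf.mem, hf.id_on, fun l hl a ha => ?_⟩
  have h1 := congrArg (fun F => F a) hf.par
  rw [Module.End.mul_apply, LinearMap.smul_apply] at h1
  have h2 : f a ∈ W.gr X l := op_mem (rop_iff.1 hf.mem) ha (by ring)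
  rw [Pool.Agent.H914.par, scal_apply _ _ h2, ← sub_eq_zero, ← sub_smul] at h1
  exact (smul_eq_zero.1 h1).resolve_left (sub_ne_zero.2 (neg_one_pow_ne (K := W.K) hl).symm)

/-- Transposed operators. -/
lemma exists_transpose {u : Module.End W.K (W.H X)} (hu : ROp W X 0 u) :
    ∃ u', ROp W X 0 u' ∧ ∀ a b, W.tr X (a * u' b) = W.tr X (u a * b) := by
  obtain ⟨P, hP, rfl⟩ := exists_of_rop (p := X.dim) (by simp) hu
  refine ⟨W.corr (W.cl _ (ops.pull (swap X X) P)), rop_corr (p := X.dim) (by simp)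
    (ops.pull_mem _ hP), fun a b => ?_⟩
  rw [W.cl_pull]
  exact (tr_corr_swap (W.cl_mem hP) a b).symm

/-- Equality in `H^l(X)` can be tested by the pairing with `H^(2 n - l)(X)`. -/
lemma eq_of_tr {l : ℕ} {x y : W.H X} (hx : x ∈ W.gr X l) (hy : y ∈ W.gr X l)
    (h : ∀ p, p + l = 2 * X.dim → ∀ a ∈ W.gr X p, W.tr X (a * x) = W.tr X (a * y)) : x = y := by
  rw [← sub_eq_zero]
  apply nondeg_right
  intro a
  refine gr_induction (W.isInternal X) (p := fun a => W.tr X (a * (x - y)) = 0) ?_ ?_ a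
  · intro p a ha
    by_cases hp : p + l = 2 * X.dim
    · rw [mul_sub, map_sub, h p hp a ha, sub_self]
    · exact W.tr_eq_zero (W.mul_mem ha (Submodule.sub_mem _ hx hy)) hp
  · intro a a' ha ha'
    rw [add_mul, map_add, ha, ha', add_zero]

/-- A correspondence which is the identity on the cohomology of one parity below the middle and zero
on the cohomology of the other parity gives the sign conjecture. -/
lemma sign_of_half {q : Module.End W.K (W.H X)} (hq : ROp W X 0 q)
    (h1 : ∀ i < X.dim, i % 2 ≠ X.dim % 2 → ∀ a ∈ W.gr X i, q a = a)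
    (h2 : ∀ i, i % 2 = X.dim % 2 → ∀ a ∈ W.gr X i, q a = 0) : SignStd W X := by
  have hOA := rop_opAlg (W := W) (X := X)
  obtain ⟨q', hq', htr⟩ := exists_transpose hq
  have hmem : ∀ {u : Module.End W.K (W.H X)}, ROp W X 0 u → ∀ {l : ℕ} {a : W.H X},
      a ∈ W.gr X l → u a ∈ W.gr X l := fun hu _ _ ha => op_mem (rop_iff.1 hu) ha (by ring)
  -- the transposed operator
  have h3 : ∀ i, X.dim < i → i % 2 ≠ X.dim % 2 → ∀ a ∈ W.gr X i, q' a = a := by
    intro i hi hpi a ha
    apply eq_of_tr (hmem hq' ha) ha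
    intro p hp b hb
    rw [htr, h1 p (by omega) (by omega) b hb]
  have h4 : ∀ i, i % 2 = X.dim % 2 → ∀ a ∈ W.gr X i, q' a = 0 := by
    intro i hpi a ha
    apply eq_of_tr (hmem hq' ha) (Submodule.zero_mem _)
    intro p hp b hb
    rw [htr, h2 p (by omega) b hb, zero_mul, mul_zero]
  set E : Module.End W.K (W.H X) := 1 - (1 - q) * (1 - q') with hE
  have hER : ROp W X 0 E :=
    hOA.sub hOA.one (hOA.cast (hOA.mul (hOA.sub hOA.one hq) (hOA.sub hOA.one hq')) (by ring))
  have hE1 : ∀ i, i % 2 ≠ X.dim % 2 → ∀ a ∈ W.gr X i, E a = a := by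
    intro i hpi a ha
    rw [hE, LinearMap.sub_apply, Module.End.one_apply, Module.End.mul_apply]
    have h5 : (1 - q) ((1 - q') a) = 0 := by
      rcases Nat.lt_or_ge i X.dim with hi | hi
      · rw [LinearMap.sub_apply (1 : Module.End W.K (W.H X)) q, Module.End.one_apply]
        rw [h1 i hi hpi ((1 - q') a) (hmem (hOA.sub hOA.one hq') ha), sub_self]
      · have h6 : (1 - q') a = 0 := by
          rw [LinearMap.sub_apply, Module.End.one_apply, h3 i (by omega) hpi a ha, sub_self]
        rw [h6, map_zero]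
    rw [h5, sub_zero]
  have hE2 : ∀ i, i % 2 = X.dim % 2 → ∀ a ∈ W.gr X i, E a = 0 := by
    intro i hpi a ha
    have h5 : (1 - q') a = a := by
      rw [LinearMap.sub_apply, Module.End.one_apply, h4 i hpi a ha, sub_zero]
    rw [hE, LinearMap.sub_apply, Module.End.one_apply, Module.End.mul_apply, h5,
      LinearMap.sub_apply, Module.End.one_apply, h2 i hpi a ha, sub_zero, sub_self]
  rcases Nat.even_or_odd X.dim with hn | hn
  · rw [Nat.even_iff] at hn
    obtain ⟨P, hP, hPe⟩ := exists_of_rop (p := X.dim) (by simp) (hOA.sub hOA.one hER)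
    refine ⟨P, hP, ?_⟩
    rw [hPe]
    refine fun i a ha => ?_
    rw [LinearMap.sub_apply, Module.End.one_apply]
    split_ifs with hi
    · rw [Nat.even_iff] at hi
      rw [hE2 i (by omega) a ha, sub_zero]
    · rw [Nat.not_even_iff] at hi
      rw [hE1 i (by omega) a ha, sub_self]
  · rw [Nat.odd_iff] at hn
    obtain ⟨P, hP, hPe⟩ := exists_of_rop (p := X.dim) (by simp) hER
    refine ⟨P, hP, ?_⟩
    rw [hPe]
    refine fun i a ha => ?_
    split_ifs with hi
    · rw [Nat.even_iff] at hi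
      exact hE1 i (by omega) a ha
    · rw [Nat.not_even_iff] at hi
      exact hE2 i (by omega) a ha

/-- **The sign conjecture for a general section.** -/
theorem GeneralSection.signStd_iff (G : GeneralSection W j D) (hD : X.IsCyc 1 D) :
    SignStd W Y ↔ ∀ i < Y.dim, i % 2 ≠ Y.dim % 2 →
      ParitySep W X i ∧ LeftInvAlg W X D i (X.dim - Y.dim) := by
  have hlt := G.lt
  constructor
  · intro hS i hi hpi
    obtain ⟨f, hf⟩ := G.exists_cut hD hS hi hpi
    exact ⟨hf.paritySep, G.leftInv hD hS hi hpi⟩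
  · intro h
    obtain ⟨m, hm, hpm⟩ := G.push_map
    have hmK : (m : W.K) ≠ 0 := by exact_mod_cast hm
    set r := X.dim - Y.dim with hr
    set S := (Finset.range Y.dim).filter (fun i => i % 2 ≠ Y.dim % 2) with hS
    have hSm : ∀ {i}, i ∈ S ↔ i < Y.dim ∧ i % 2 ≠ Y.dim % 2 := by
      intro i; rw [hS, Finset.mem_filter, Finset.mem_range]
    set PP : Module.End W.K (W.H X) → Prop := fun w => ROp W X (-(r : ℤ)) w ∧
      ∀ l, l % 2 = Y.dim % 2 → ∀ a ∈ W.gr X l, w a = 0 with hPP
    have hOA := rop_opAlg (W := W) (X := X)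
    have hL := lop_rop (W := W) hD r
    have hLm : ∀ {l : ℕ} {a : W.H X}, a ∈ W.gr X l → (lop W X D ^ r) a ∈ W.gr X (l + 2 * r) :=
      fun ha => op_mem (rop_iff.1 hL) ha (by push_cast; ring)
    obtain ⟨w, ⟨hw, hw0⟩, hwi⟩ := exists_common (gr := W.gr X) S PP (lop W X D ^ r)
      ⟨hOA.zero _, fun l _ a _ => rfl⟩
      (fun a b ha hb => ⟨hOA.add ha.1 hb.1, fun l hl x hx => by
        rw [LinearMap.add_apply, ha.2 l hl x hx, hb.2 l hl x hx, add_zero]⟩)
      (fun a ha => ⟨hOA.neg ha.1, fun l hl x hx => by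
        rw [LinearMap.neg_apply, ha.2 l hl x hx, neg_zero]⟩)
      (fun a b ha hb => ⟨hOA.cast (hOA.mul (hOA.mul ha.1 hL) hb.1) (by ring), fun l hl x hx => by
        rw [Module.End.mul_apply, hb.2 l hl x hx, map_zero]⟩)
      (fun a ha l _ x hx => by
        exact op_mem (rop_iff.1 (hOA.cast (hOA.mul ha.1 hL) (by ring) : ROp W X 0
          (a * lop W X D ^ r))) hx (by ring))
      (fun i hi => by
        obtain ⟨hsep, hinv⟩ := h i (hSm.1 hi).1 (hSm.1 hi).2
        obtain ⟨u, hu, hu1, hu2⟩ := paritySep_iff.1 hsep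
        obtain ⟨w, hw, hwi⟩ := (BM.leftInv_iff (Nat.sub_le _ _)).1 hinv
        refine ⟨u * w, ⟨hOA.cast (hOA.mul hu (rop_iff.2 hw)) (by ring), fun l hl x hx => ?_⟩,
          fun x hx => ?_⟩
        · rw [Module.End.mul_apply]
          by_cases hneg : ∃ p : ℕ, (p : ℤ) = (l : ℤ) + 2 * (-(r : ℤ))
          · obtain ⟨p, hp⟩ := hneg
            have h5 : w x ∈ W.gr X p := op_mem hw hx hp
            have h6 := (hSm.1 hi).2
            exact hu2 p (by omega) _ h5
          · push Not at hneg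
            have h5 := KOp.isHom hw.kop l x (by rw [grZ_natCast]; exact hx)
            rw [grZ_of_neg (by
              by_contra h7
              exact hneg _ (Int.toNat_of_nonneg (by omega)))] at h5
            rw [(Submodule.mem_bot _).1 h5, map_zero]
        · rw [Module.End.mul_apply, Module.End.mul_apply, lop_pow_apply, hwi x hx, hu1 x hx])
    have hq : ROp W Y 0 (((m⁻¹ : ℚ) : W.K) • ((W.map j).toLinearMap ∘ₗ w ∘ₗ W.push j)) := by
      rw [rop_iff]
      exact (G.qop_restrict (rop_iff.1 hw)).smul _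
    apply sign_of_half hq
    · intro i hi hpi y hy
      obtain ⟨a, ha, rfl⟩ := G.surj i hi y hy
      have h5 := hwi i (hSm.2 ⟨hi, hpi⟩) a ha
      rw [Module.End.mul_apply, lop_pow_apply] at h5
      rw [LinearMap.smul_apply, LinearMap.comp_apply, LinearMap.comp_apply, hpm, map_smul, h5,
        AlgHom.toLinearMap_apply, map_smul, smul_smul]
      push_cast
      rw [inv_mul_cancel₀ hmK, one_smul]
    · intro i hpi y hy
      rw [LinearMap.smul_apply, LinearMap.comp_apply, LinearMap.comp_apply]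
      have h5 : W.push j y ∈ W.gr X (i + 2 * r) := op_mem (qop_push (W := W) j) hy (by omega)
      rw [hw0 (i + 2 * r) (by omega) _ h5, map_zero, smul_zero]

end Pool.Agent.J4H44.BM
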