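import Pool.Agent.J4H44.BM.Sec
import Pool.Agent.H914R2.Crit

/-!
# The conjecture B from the sign conjecture for general sections
-/

open CategoryTheory AlgebraicGeometry Finset

universe u v

namespace Pool.Agent.J4H44.BM

open Pool.Agent.H914 VarClass Obj WeilCohomology Pool.Agent.H447 Pool.Agent.W534

variable {k : Type u} [Field k] {𝒱 : VarClass k} {ops : CycleOps 𝒱}
  {W : WeilCohomology.{u, v} ops} {X Y : 𝒱.Obj} {D : X.Cycles}

/-- **The Lefschetz standard conjecture in one degree.** -/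
theorem leftInv_of_sections (hD : X.IsCyc 1 D) {i : ℕ} (hi : i < X.dim)
    (h1 : SignStd W X ∨ ∃ (Y : 𝒱.Obj) (j : Y ⟶ X), i < Y.dim ∧ i % 2 ≠ Y.dim % 2 ∧
      GeneralSection W j D ∧ SignStd W Y)
    (h2 : ∃ (Z : 𝒱.Obj) (j : Z ⟶ X.prod X), Z.dim = 2 * i + 1 ∧
      GeneralSection W j (boxCyc ops D D) ∧ SignStd W Z) :
    LeftInvAlg W X D i (X.dim - i) := by
  obtain ⟨f, hf⟩ : ∃ f, Cut W X i f := by
    rcases h1 with hS | ⟨Y, j, hY, hpar, G, hS⟩
    · exact exists_cut hS i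
    · exact G.exists_cut hD hS hY hpar
  obtain ⟨Z, j, hZ, G, hS⟩ := h2
  have h3 := G.leftInv (boxCyc_mem hD hD) hS (i := i + i) (by omega) (by omega)
  rw [dim_prod, hZ, show X.dim + X.dim - (2 * i + 1) = (X.dim - i) + (X.dim - i) - 1 by omega] at h3
  rcases dichotomy hD hD (Nat.sub_le _ _) (by omega) (Nat.sub_le _ _) hf hf h3 with h | h
  · exact h
  · exact h

lemma lefInj {i : ℕ} (hi : i ≤ X.dim) (h : i < X.dim → LeftInvAlg W X D i (X.dim - i)) :
    ∀ a ∈ W.gr X i, (LinearMap.mulLeft W.K (W.cl X D) ^ (X.dim - i)) a = 0 → a = 0 := by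
  intro a ha h0
  rcases Nat.lt_or_ge i X.dim with h1 | h1
  · obtain ⟨c, -, Z, -, hinv⟩ := h h1
    have h2 := hinv a ha
    rw [← lop_pow_apply, lop, h0, map_zero] at h2
    exact h2.symm
  · rw [show X.dim - i = 0 by omega] at h0
    simpa using h0

lemma lefSurj (hD : X.IsCyc 1 D) {i : ℕ} (hi : i ≤ X.dim)
    (h : i < X.dim → LeftInvAlg W X D i (X.dim - i)) :
    ∀ b ∈ W.gr X (2 * X.dim - i), ∃ a ∈ W.gr X i,
      (LinearMap.mulLeft W.K (W.cl X D) ^ (X.dim - i)) a = b := by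
  have hmem : ∀ x ∈ W.gr X i,
      (LinearMap.mulLeft W.K (W.cl X D) ^ (X.dim - i)) x ∈ W.gr X (2 * X.dim - i) := by
    intro x hx
    have h1 := lop_mem (s := X.dim - i) hD hx
    rw [← lop_pow_apply, show i + 2 * (X.dim - i) = 2 * X.dim - i by omega] at h1
    exact h1
  exact surj_of_finrank_eq hmem (lefInj hi h) (betti_symm W hi).symm

/-- Hard Lefschetz from the left inverses. -/
lemma hardLefschetz_of_leftInv (hD : X.IsCyc 1 D)
    (h : ∀ i < X.dim, LeftInvAlg W X D i (X.dim - i)) : HardLefschetz W X D :=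
  fun i hi => ⟨lefInj hi (h i), lefSurj hD hi (h i)⟩

/-- The conjecture B from the left inverses. -/
theorem lefschetzB_of_leftInv (hD : X.IsCyc 1 D)
    (h : ∀ i < X.dim, LeftInvAlg W X D i (X.dim - i)) : LefschetzB W X D := by
  have hHL := hardLefschetz_of_leftInv hD h
  apply lefschetzB_of_inj hD hHL
  intro c hc
  rcases Nat.eq_zero_or_pos c with rfl | hc0
  · exact ⟨LinearMap.id, KOp.cast (KOp.id X) (by simp), fun a _ h0 => by simpa using h0⟩
  · obtain ⟨c', hc', Z, hZ, hinv⟩ := h (X.dim - c) (by omega)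
    refine ⟨W.corr (W.cl _ Z), KOp.gen (p := c') (by omega) hZ, fun a ha h0 => ?_⟩
    obtain ⟨b, hb, hb'⟩ := (hHL (X.dim - c) (by omega)).2 a
      (by rwa [show 2 * X.dim - (X.dim - c) = X.dim + c by omega])
    have h1 := hinv b hb
    rw [← lop_pow_apply, lop, hb', h0] at h1
    rw [← hb', ← h1, map_zero]

end Pool.Agent.J4H44.BM
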