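import Pool.Agent.J4H44.BM.NilB
import Pool.Agent.J4H44.BM.Main
import Pool.Agent.X310.Mom5

/-!
# The conjecture B and left inverses below the middle
-/

open CategoryTheory AlgebraicGeometry Finset Module

universe u v

namespace Pool.Agent.J4H44.BM

open Pool.Agent.H914 Pool.Agent.H447 VarClass Obj WeilCohomology Pool.Agent.N190.CB
  Pool.Agent.W534

variable {k : Type u} [Field k] {𝒱 : VarClass k} {ops : CycleOps 𝒱}
  {W : WeilCohomology.{u, v} ops} {X Y Z : 𝒱.Obj}

/-- Left inverses from the conjecture B. -/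
theorem leftInvAlg_of_lefschetzB {D : X.Cycles} (hD : X.IsCyc 1 D) (hHL : HardLefschetz W X D)
    (hB : LefschetzB W X D) {i s : ℕ} (his : i + s ≤ X.dim) : LeftInvAlg W X D i s := by
  obtain ⟨Φ, hΦ, hLam⟩ := lefschetzB_iff_rop.1 hB
  have hLh : IsHom (W.gr X) 2 (LinearMap.mulLeft W.K (W.cl X D)) := by
    simpa using rop_opAlg.hom (rop_mulLeft (W := W) hD)
  have hOA := rop_opAlg (W := W) (X := X)
  have hR : ROp W X (-s) (Φ ^ (X.dim - i) * lop W X D ^ (X.dim - i - s)) :=
    hOA.cast (hOA.mul (hOA.pow hΦ (X.dim - i)) (lop_rop (W := W) hD (X.dim - i - s))) (by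
      push_cast [show s ≤ X.dim - i by omega, show i ≤ X.dim by omega]; ring)
  obtain ⟨Z', hZ', hZe⟩ := exists_of_rop (p := X.dim - s) (by omega) hR
  refine ⟨X.dim - s, by omega, Z', hZ', fun a ha => ?_⟩
  rw [hZe, ← lop_pow_apply, Module.End.mul_apply, ← Module.End.mul_apply (lop W X D ^ _),
    ← pow_add, show X.dim - i - s + s = X.dim - i by omega]
  exact lam_pow_L_pow hLh W_hbd hHL hLam (Nat.sub_le _ _)
    (by rwa [show X.dim - (X.dim - i) = i by omega])

lemma sign_of_lefschetzB {D : X.Cycles} (hD : X.IsCyc 1 D) (hHL : HardLefschetz W X D)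
    (hB : LefschetzB W X D) : SignStd W X := by
  obtain ⟨Φ, hΦ, hLam⟩ := lefschetzB_iff_rop.1 hB
  exact sign_of_kunneth fun i => rop_opAlg.proj_mem (W.isInternal X) W_hbd
    (rop_mulLeft (W := W) hD) hHL hΦ hLam i

/-- The sign conjecture implies the nilpotence of the numerically trivial correspondences. -/
theorem numNil_of_sign (hS : SignStd W X) : NumNil W X := by
  intro Z hZ h0
  have hOA := rop_opAlg (W := W) (X := X)
  have hxR : ROp W X 0 (W.corr (W.cl _ Z)) := rop_corr (p := X.dim) (by simp) hZ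
  have hx : ∀ y, ROp W X 0 y → LinearMap.trace W.K _ (par (W.isInternal X) *
      (W.corr (W.cl _ Z) * y)) = 0 := by
    intro y hy
    obtain ⟨Z', hZ', rfl⟩ := exists_of_rop (p := X.dim) (by simp) hy
    rw [str_eq_deg (by ring) hZ hZ', h0 _ (ops.pull_mem _ hZ'), Rat.cast_zero]
  apply isNilpotent_of_trace_pow
  intro r
  set x := W.corr (W.cl _ Z)
  have h1 := hx (x ^ r * par (W.isInternal X)) (hOA.cast (hOA.mul (hOA.pow hxR r)
    (par_rop_of_sign hS)) (by ring))
  rw [← mul_assoc x, ← pow_succ', LinearMap.trace_mul_comm, mul_assoc, par_mul_par, mul_one] at h1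
  exact h1

/-- The conjecture B from left inverses with coefficients. -/
theorem lefschetzB_of_leftInvK {D : X.Cycles} (hD : X.IsCyc 1 D) (hHL : HardLefschetz W X D)
    (h : ∀ i < X.dim, LeftInvK W X D i (X.dim - i)) : LefschetzB W X D := by
  apply lefschetzB_of_inj hD hHL
  intro c hc
  rcases Nat.eq_zero_or_pos c with rfl | hc0
  · exact ⟨LinearMap.id, KOp.cast (KOp.id X) (by simp), fun a _ h0 => by simpa using h0⟩
  · obtain ⟨w, hw, hinv⟩ := (leftInvK_iff (Nat.sub_le _ _)).1 (h (X.dim - c) (by omega))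
    refine ⟨w, KOp.cast hw (by omega), fun a ha h0 => ?_⟩
    obtain ⟨b, hb, hb'⟩ := (hHL (X.dim - c) (by omega)).2 a
      (by rwa [show 2 * X.dim - (X.dim - c) = X.dim + c by omega])
    have h1 := hinv b hb
    rw [lop, hb', h0] at h1
    rw [← hb', ← h1, map_zero]

lemma powObj_dim (X : 𝒱.Obj) (m : ℕ) : (powObj X m).dim = (m + 1) * X.dim := by
  induction m with
  | zero => rw [powObj, zero_add, one_mul]
  | succ m ih => rw [powObj, dim_prod, ih]; ring

lemma powDiv_hard {D : X.Cycles} (hD : X.IsCyc 1 D) (hX : HardLefschetz W X D) (m : ℕ) :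
    HardLefschetz W (powObj X m) (powDiv ops D m) := by
  induction m with
  | zero => exact hX
  | succ m ih => exact TH125.Gal.hardLefschetz_prod (powDiv_mem hD m) hD ih hX

lemma powDiv_B {D : X.Cycles} (hD : X.IsCyc 1 D) (hX : HardLefschetz W X D)
    (hB : LefschetzB W X D) (m : ℕ) : LefschetzB W (powObj X m) (powDiv ops D m) := by
  induction m with
  | zero => exact hB
  | succ m ih =>
    exact X310.Mom.lefschetzB_prod (powDiv_mem hD m) hD (powDiv_hard hD hX m) hX ih hB

/-- **The conjecture B and left inverses below the middle on the powers.** -/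
theorem lefschetzB_iff_below {D : X.Cycles} (hD : X.IsCyc 1 D) (hHL : HardLefschetz W X D)
    (k : ℕ) : LefschetzB W X D ↔ NumNil W (powObj X k) ∧
      ∀ i < X.dim, LeftInvK W (powObj X k) (powDiv ops D k) ((k + 1) * i)
        ((k + 1) * (X.dim - i - 1) + 1) := by
  constructor
  · intro hB
    have h1 := powDiv_B hD hHL hB k
    have h2 := powDiv_hard hD hHL k
    have h3 := powDiv_mem (ops := ops) hD k
    refine ⟨numNil_of_sign (sign_of_lefschetzB h3 h2 h1), fun i hi => ?_⟩
    apply LeftInvAlg.leftInvK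
    apply leftInvAlg_of_lefschetzB h3 h2 h1
    rw [powObj_dim]
    obtain ⟨m, hm⟩ : ∃ m, X.dim = i + 1 + m := ⟨X.dim - i - 1, by omega⟩
    rw [hm, show i + 1 + m - i - 1 = m by omega]
    nlinarith
  · rintro ⟨hN, h⟩
    apply lefschetzB_of_leftInvK hD hHL
    intro i hi
    have h1 := h i hi
    rw [show X.dim - i - 1 = (X.dim - i) - 1 by omega] at h1
    exact leftInvK_of_pow hD (by omega) (Nat.sub_le _ _) k hN h1

end Pool.Agent.J4H44.BM
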