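import Pool.Agent.H914R2.KDesc

/-!
# Rational Fitting idempotents
-/

open Polynomial Finset

namespace Pool.Agent.J4H44.BM

open Pool.Agent.H914

section Near

variable {A : Type*} [Ring A]

lemma idem_pow {e : A} (he : e * e = e) (m : ℕ) : e ^ (m + 1) = e := by
  induction m with
  | zero => rw [zero_add, pow_one]
  | succ k ih => rw [pow_succ, ih, he]

/-- An idempotent `E` is a polynomial in `T` if `T - E` is nilpotent and commutes with `E`. -/
lemma idem_of_near {E n : A} (hE : E * E = E) (hc : Commute E n) (hn : IsNilpotent n) :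
    ∃ N : ℕ, 1 ≤ N ∧ 1 - (1 - (E + n) ^ N) ^ N = E := by
  obtain ⟨M, hM⟩ := hn
  have hq : (1 - E) * (1 - E) = 1 - E := by rw [mul_sub, sub_mul, sub_mul, hE]; simp
  set N := M + 1 with hN
  set T := E + n with hT
  have hcT : Commute E T := (Commute.refl E).add_right hc
  have hA : E * (T - 1) ^ N = 0 := by
    have e1 : E * (T - 1) = E * n := by rw [hT, mul_sub, mul_add, hE, mul_one]; abel
    have hc1 : Commute E (T - 1) := hcT.sub_right (Commute.one_right E)
    have e2 : (E * (T - 1)) ^ N = 0 := by
      rw [e1, hc.mul_pow, hN, pow_succ n, hM, zero_mul, mul_zero]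
    rw [hc1.mul_pow, hN, idem_pow hE] at e2
    exact e2
  have hB : (1 - E) * T ^ N = 0 := by
    have e1 : (1 - E) * T = (1 - E) * n := by
      rw [hT, mul_add, sub_mul 1 E E, one_mul, hE, sub_self, zero_add]
    have hc1 : Commute (1 - E) T := (Commute.one_left T).sub_left hcT
    have hc2 : Commute (1 - E) n := (Commute.one_left n).sub_left hc
    have e2 : ((1 - E) * T) ^ N = 0 := by
      rw [e1, hc2.mul_pow, hN, pow_succ n, hM, zero_mul, mul_zero]
    rw [hc1.mul_pow, hN, idem_pow hq] at e2
    exact e2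
  refine ⟨N, by omega, ?_⟩
  have e1 : E * (1 - T ^ N) ^ N = 0 := by
    have e2 : (1 - T ^ N : A) = (T - 1) * (-(∑ i ∈ range N, T ^ i)) := by
      rw [mul_neg, mul_geom_sum]; abel
    have e3 : Commute (T - 1) (-(∑ i ∈ range N, T ^ i)) := by
      apply Commute.neg_right
      apply Commute.sum_right
      intro i _
      exact ((Commute.refl T).sub_left (Commute.one_left T)).pow_right i
    rw [e2, e3.mul_pow, ← mul_assoc, hA, zero_mul]
  have e2 : (1 - E) * (1 - T ^ N) ^ N = 1 - E := by
    have e3 : ∀ m : ℕ, (1 - E) * (1 - T ^ N) ^ m = 1 - E := by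
      intro m
      induction m with
      | zero => rw [pow_zero, mul_one]
      | succ m ih => rw [pow_succ, ← mul_assoc, ih, mul_sub, mul_one, hB, sub_zero]
    exact e3 N
  have e3 : (1 - T ^ N) ^ N = 1 - E := by
    have e4 : (1 - T ^ N) ^ N = E * (1 - T ^ N) ^ N + (1 - E) * (1 - T ^ N) ^ N := by
      noncomm_ring
    rw [e4, e1, e2, zero_add]
  rw [e3]; abel

end Near

variable {K : Type*} [Field K] [CharZero K] {V : Type*} [AddCommGroup V] [Module K V]
  [Module.Finite K V]

omit [CharZero K] [Module.Finite K V] in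
lemma trace_nilp {y : Module.End K V} (h : IsNilpotent y) : LinearMap.trace K V y = 0 :=
  (LinearMap.isNilpotent_trace_of_isNilpotent h).eq_zero

/-- **Rational Fitting idempotents.** If the powers of `x` have rational traces then the Fitting
idempotent of `x` is a rational polynomial in `x` divisible by `x`. -/
theorem rat_fitting {x : Module.End K V}
    (hx : ∀ r : ℕ, ∃ q : ℚ, LinearMap.trace K V (x ^ (r + 1)) = q) :
    ∃ p : ℚ[X], (ev x p * x) * (ev x p * x) = ev x p * x ∧
      ∃ k, x ^ k * (1 - ev x p * x) = 0 := by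
  obtain ⟨ret, hret⟩ := exists_retract K
  obtain ⟨w, k, hw0, hw, hkw, g, hg⟩ := exists_fitting x
  set E : Module.End K V := aeval x (1 - w) with hEdef
  have hE1 : 1 - E = aeval x w := by rw [hEdef, map_sub, map_one, sub_sub_cancel]
  have hE : E * E = E := by
    have h1 : E = 1 - aeval x w := by rw [← hE1, sub_sub_cancel]
    rw [h1, sub_mul, mul_sub, mul_sub, hw]
    simp
  have hq : (1 - E) * (1 - E) = 1 - E := by rw [mul_sub, sub_mul, sub_mul, hE]; simp
  have hEg : E = aeval x g * x := by rw [hEdef, hg, mul_comm, map_mul, aeval_X]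
  have hkE : x ^ k * (1 - E) = 0 := by rw [hE1, hkw]
  have hcx : ∀ p q : K[X], Commute (aeval x p) (aeval x q) := by
    intro p q
    rw [Commute, SemiconjBy, ← map_mul, ← map_mul, mul_comm]
  have hc : Commute (1 - E) x := by
    have := hcx w X
    rwa [aeval_X, ← hE1] at this
  have hEx : ∀ m : ℕ, LinearMap.trace K V (E * x ^ (m + 1)) =
      LinearMap.trace K V (x ^ (m + 1)) := by
    intro m
    have h1 : IsNilpotent ((1 - E) * x ^ (m + 1)) := by
      refine ⟨k + 1, ?_⟩
      rw [(hc.pow_right (m + 1)).mul_pow, idem_pow hq, ← pow_mul]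
      have h5 : (m + 1) * (k + 1) = k + (m * k + m + 1) := by ring
      rw [h5, pow_add, ← mul_assoc, (hc.pow_right k).eq, hkE, zero_mul]
    have h2 := trace_nilp h1
    rw [sub_mul, one_mul, map_sub, sub_eq_zero] at h2
    exact h2.symm
  -- the rational polynomial
  set p0 : ℚ[X] := ∑ l ∈ g.support, C (ret (g.coeff l)) * X ^ l with hp0
  have hg' : g = ∑ l ∈ g.support, C (g.coeff l) * X ^ l := g.as_sum_support_C_mul_X_pow
  set T : Module.End K V := ev x p0 * x with hT
  have htr : ∀ m : ℕ, LinearMap.trace K V (T * x ^ (m + 1)) =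
      LinearMap.trace K V (E * x ^ (m + 1)) := by
    intro m
    have e1 : T * x ^ (m + 1) = ∑ l ∈ g.support, ((ret (g.coeff l) : ℚ) : K) •
        x ^ (l + m + 1 + 1) := by
      rw [hT, hp0, map_sum, Finset.sum_mul, Finset.sum_mul]
      apply Finset.sum_congr rfl
      intro l _
      rw [map_mul, ev_C, map_pow, ev_X, smul_mul_assoc, smul_mul_assoc, smul_mul_assoc, one_mul,
        mul_assoc, ← pow_succ', ← pow_add]
      congr 2
    have e2 : E * x ^ (m + 1) = ∑ l ∈ g.support, g.coeff l • x ^ (l + m + 1 + 1) := by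
      rw [hEg]
      conv_lhs => rw [hg']
      rw [map_sum, Finset.sum_mul, Finset.sum_mul]
      apply Finset.sum_congr rfl
      intro l _
      rw [map_mul, aeval_C, map_pow, aeval_X, Algebra.algebraMap_eq_smul_one, smul_mul_assoc,
        smul_mul_assoc, smul_mul_assoc, one_mul, mul_assoc, ← pow_succ', ← pow_add]
      congr 2
    obtain ⟨q, hqq⟩ := hx m
    have e3 : LinearMap.trace K V (T * x ^ (m + 1)) =
        ((ret (LinearMap.trace K V (E * x ^ (m + 1))) : ℚ) : K) := by
      rw [e1, e2, map_sum, map_sum, map_sum]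
      push_cast
      apply Finset.sum_congr rfl
      intro l _
      obtain ⟨q', hq'⟩ := hx (l + m + 1)
      rw [map_smul, map_smul, hq', smul_eq_mul, smul_eq_mul, ret_mul]
      push_cast; rfl
    rw [e3, hEx, hqq, ret_ratCast hret]
  -- the difference is nilpotent
  set h : K[X] := p0.map (algebraMap ℚ K) - g with hh
  have hnx : T - E = aeval x h * x := by
    rw [hT, hEg, hh, map_sub, sub_mul, ev_apply]
  have hcn : ∀ q : K[X], LinearMap.trace K V ((T - E) * (x * aeval x q)) = 0 := by
    intro q
    induction q using Polynomial.induction_on' with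
    | add a b ha hb => rw [map_add, mul_add, mul_add, map_add, ha, hb, add_zero]
    | monomial r c =>
      have e1 : (T - E) * (x * aeval x (monomial r c)) = c • ((T - E) * x ^ (r + 1)) := by
        rw [aeval_monomial, Algebra.algebraMap_eq_smul_one, smul_mul_assoc, one_mul,
          mul_smul_comm, mul_smul_comm, ← pow_succ']
      rw [e1, map_smul, sub_mul, map_sub, htr, sub_self, smul_zero]
  have hnil : IsNilpotent (T - E) := by
    have h2 : IsNilpotent ((T - E) * (T - E)) := by
      apply isNilpotent_of_trace_pow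
      intro r
      have e1 : ((T - E) * (T - E)) ^ (r + 1) = (T - E) * (x * aeval x
          (h * (h * X * (h * X)) ^ r)) := by
        have e2 : T - E = aeval x (h * X) := by rw [hnx, map_mul, aeval_X]
        have e3 : x = aeval x (X : K[X]) := (aeval_X x).symm
        rw [e2]
        nth_rewrite 4 [e3]
        rw [← map_mul, ← map_mul, ← map_mul, ← map_pow]
        congr 1
        ring
      rw [e1, hcn]
    obtain ⟨M, hM⟩ := h2
    refine ⟨2 * M, ?_⟩
    rw [pow_mul, pow_two, hM]
  have hcE : Commute E (T - E) := by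
    have e2 : T - E = aeval x (h * X) := by rw [hnx, map_mul, aeval_X]
    rw [e2]
    exact hcx _ _
  obtain ⟨N, hN1, hN⟩ := idem_of_near hE hcE hnil
  rw [add_sub_cancel] at hN
  -- `1 - (1 - Y ^ N) ^ N` is divisible by `X`
  have hdvd : (X : ℚ[X]) ∣ 1 - (1 - (p0 * X) ^ N) ^ N := by
    have h1 : (1 - (1 - (p0 * X) ^ N)) ∣ 1 ^ N - (1 - (p0 * X) ^ N) ^ N := sub_dvd_pow_sub_pow _ _ _
    rw [sub_sub_cancel, one_pow] at h1
    refine dvd_trans ?_ h1
    exact dvd_trans (Dvd.intro_left _ rfl) (dvd_pow_self _ (by omega))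
  obtain ⟨p, hp⟩ := hdvd
  have hfin : ev x p * x = E := by
    have h1 : ev x (1 - (1 - (p0 * X) ^ N) ^ N) = E := by
      rw [map_sub, map_one, map_pow, map_sub, map_one, map_pow, map_mul, ev_X]
      exact hN
    rw [hp, mul_comm, map_mul, ev_X] at h1
    exact h1
  refine ⟨p, ?_, k, ?_⟩
  · rw [hfin, hE]
  · rw [hfin, hkE]

end Pool.Agent.J4H44.BM
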