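import Pool.Agent.J4H44.BM.Fit
import Pool.Agent.H447R3.NcA

/-!
# The defect idempotent of an operator
-/

open Polynomial Finset Module

namespace Pool.Agent.J4H44.BM

open Pool.Agent.H914 Pool.Agent.H447

variable {K : Type*} [Field K] [CharZero K] {V : Type*} [AddCommGroup V] [Module K V]
  [Module.Finite K V] {gr : ℕ → Submodule K V} {R : ℤ → Module.End K V → Prop}

/-- Let `f` be an idempotent of degree zero with image of pure parity. There is an idempotent `g` of
maximal rank of the form `f z L f`, and then `L (f - g)` is numerically trivial. -/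
theorem exists_defect (hR : OpAlg gr R) (h : DirectSum.IsInternal gr)
    (hstr : ∀ y, R 0 y → ∃ q : ℚ, LinearMap.trace K V (par h * y) = q)
    {f L : Module.End K V} {s : ℤ} {i : ℕ} (hf : R 0 f) (hff : f * f = f)
    (hpf : par h * f = (-1 : K) ^ i • f) (hL : R s L) :
    ∃ z, R (-s) z ∧ (f * z * L * f) * (f * z * L * f) = f * z * L * f ∧
      NumR h R s (L * (f - f * z * L * f)) := by
  set S : Set ℕ := {m | ∃ z, R (-s) z ∧ (f * z * L * f) * (f * z * L * f) = f * z * L * f ∧
    finrank K (LinearMap.range (f * z * L * f)) = m} with hS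
  have hne : S.Nonempty := ⟨_, 0, hR.zero _, by simp, rfl⟩
  have hbd : BddAbove S := ⟨finrank K V, by
    rintro m ⟨z, -, -, rfl⟩
    exact Submodule.finrank_le _⟩
  obtain ⟨z, hz, hgg, hrk⟩ := Nat.sSup_mem hne hbd
  refine ⟨z, hz, hgg, ?_⟩
  set g : Module.End K V := f * z * L * f with hg
  have hgR : R 0 g := hR.cast (hR.mul (hR.mul (hR.mul hf hz) hL) hf) (by ring)
  have hfg : f * g = g := by rw [hg]; simp only [← mul_assoc, hff]
  have hgf : g * f = g := by rw [hg, mul_assoc, hff]
  set e : Module.End K V := f - g with he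
  have heR : R 0 e := hR.sub hf hgR
  have hee : e * e = e := by
    rw [he, sub_mul, mul_sub, mul_sub, hff, hfg, hgf, hgg]; abel
  have hfe : f * e = e := by rw [he, mul_sub, hff, hfg]
  have hef : e * f = e := by rw [he, sub_mul, hff, hgf]
  have hge : g * e = 0 := by rw [he, mul_sub, hgf, hgg, sub_self]
  have heg : e * g = 0 := by rw [he, sub_mul, hfg, hgg, sub_self]
  have hone : ((-1 : K) ^ i) * ((-1 : K) ^ i) = 1 := by
    rw [← mul_pow]; simp
  -- the corners are nilpotent
  have key : ∀ y, R (-s) y → IsNilpotent (e * y * L * e) := by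
    intro y hy
    set x : Module.End K V := e * y * L * e with hx
    have hxR : R 0 x := hR.cast (hR.mul (hR.mul (hR.mul heR hy) hL) heR) (by ring)
    have hex : e * x = x := by rw [hx]; simp only [← mul_assoc, hee]
    have hxe : x * e = x := by rw [hx, mul_assoc, hee]
    have hfx : f * x = x := by rw [← hex, ← mul_assoc, hfe]
    have htr : ∀ r : ℕ, ∃ q : ℚ, LinearMap.trace K V (x ^ (r + 1)) = q := by
      intro r
      obtain ⟨q, hq⟩ := hstr (x ^ (r + 1)) (hR.cast (hR.pow hxR (r + 1)) (by ring))
      have h1 : par h * x ^ (r + 1) = (-1 : K) ^ i • x ^ (r + 1) := by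
        have h2 : x ^ (r + 1) = f * x ^ (r + 1) := by rw [pow_succ', ← mul_assoc, hfx]
        rw [h2, ← mul_assoc, hpf, smul_mul_assoc]
      rw [h1, map_smul, smul_eq_mul] at hq
      refine ⟨(-1) ^ i * q, ?_⟩
      push_cast
      rw [← hq, ← mul_assoc, hone, one_mul]
    obtain ⟨p, hpp, k, hk⟩ := rat_fitting htr
    set g' : Module.End K V := ev x p * x with hg'
    have hcomm : Commute (ev x p) x := by
      have : Commute (ev x p) (ev x X) := by
        rw [Commute, SemiconjBy, ← map_mul, ← map_mul, mul_comm]
      rwa [ev_X] at this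
    have hg'e : g' * e = g' := by rw [hg', mul_assoc, hxe]
    have heg' : e * g' = g' := by rw [hg', hcomm.eq, ← mul_assoc, hex]
    have hfg' : f * g' = g' := by rw [← heg', ← mul_assoc, hfe]
    set a : Module.End K V := ev x p * e * y - ev x p * e * y * L * f * z with ha
    have haR : R (-s) a := by
      have hp0 : R 0 (ev x p) := hR.ev hxR p
      apply hR.sub
      · exact hR.cast (hR.mul (hR.mul hp0 heR) hy) (by ring)
      · exact hR.cast (hR.mul (hR.mul (hR.mul (hR.mul (hR.mul hp0 heR) hy) hL) hf) hz) (by ring)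
    have hg'a : g' = f * a * L * f := by
      have h1 : g' = a * L * f := by
        calc g' = ev x p * (e * y * L * e) := by rw [← hx]
          _ = (ev x p * e * y * L) * e := by simp only [mul_assoc]
          _ = (ev x p * e * y * L) * (f - f * z * L * f) := by rw [← hg, ← he]
          _ = a * L * f := by rw [ha]; noncomm_ring
      rw [← hfg', h1]; simp only [mul_assoc]
    have hsum : f * (z + a) * L * f = g + g' := by
      rw [hg, hg'a]; noncomm_ring
    have hgg' : g * g' = 0 := by rw [← heg', ← mul_assoc, hge, zero_mul]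
    have hg'g : g' * g = 0 := by rw [← hg'e, mul_assoc, heg, mul_zero]
    have hidem : (g + g') * (g + g') = g + g' := by
      rw [add_mul, mul_add, mul_add, hgg, hgg', hg'g, hpp]; abel
    have hmem : finrank K (LinearMap.range (g + g')) ∈ S :=
      ⟨z + a, hR.add hz haR, by rw [hsum]; exact hidem, by rw [hsum]⟩
    have hle := le_csSup hbd hmem
    rw [← hrk] at hle
    have htr1 : (finrank K (LinearMap.range (g + g')) : K) =
        finrank K (LinearMap.range g) + finrank K (LinearMap.range g') := by
      rw [← trace_idem hidem, ← trace_idem hgg, ← trace_idem hpp, map_add]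
    have htr2 : finrank K (LinearMap.range (g + g')) =
        finrank K (LinearMap.range g) + finrank K (LinearMap.range g') := by
      exact_mod_cast htr1
    have h0 : finrank K (LinearMap.range g') = 0 := by omega
    have hg'0 : g' = 0 := by
      apply eq_zero_of_idem_of_trace_eq_zero hpp
      rw [trace_idem hpp, h0, Nat.cast_zero]
    refine ⟨k, ?_⟩
    rw [hg'0, sub_zero, mul_one] at hk
    exact hk
  refine ⟨hR.cast (hR.mul hL heR) (by ring), fun y hy => ?_⟩
  have hfpar : f * par h = (-1 : K) ^ i • f := by
    rw [← hpf]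
    exact ((hR.hom hf).par_comm h).symm
  have hepar : e * par h = (-1 : K) ^ i • e := by
    rw [← hef, mul_assoc, hfpar, mul_smul_comm]
  rw [str_comm h (hR.hom (hR.cast (hR.mul hL heR) (by ring) : R s (L * e)))]
  have h1 : par h * (y * (L * e)) = (par h * y * L * e) * e := by
    rw [mul_assoc _ e e, hee]; simp only [mul_assoc]
  rw [h1, LinearMap.trace_mul_comm]
  have h2 : e * (par h * y * L * e) = (-1 : K) ^ i • (e * y * L * e) := by
    simp only [← mul_assoc]
    rw [hepar]
    simp only [smul_mul_assoc]
  rw [h2, map_smul, trace_nilp (key y hy), smul_zero]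

end Pool.Agent.J4H44.BM
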