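import Pool.Agent.H447R3.SpDefs

/-!
# Left inverses of the powers of the Lefschetz operator, and products: definitions
-/

open CategoryTheory AlgebraicGeometry

universe u v

namespace Pool.Agent.J4H44.BM

open Pool.Agent.H914 VarClass Obj WeilCohomology Pool.Agent.H447

section Alg

variable {K : Type*} [Field K] {A : Type*} [Ring A] [Algebra K A]

/-- The operator `w` sends `ξ ^ s * a` to `a`, for all `a` in `gr i`. -/
def LeftInverseOn (gr : ℕ → Submodule K A) (ξ : A) (i s : ℕ) (w : A →ₗ[K] A) : Prop :=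
  ∀ a ∈ gr i, w (ξ ^ s * a) = a

end Alg

variable {k : Type u} [Field k] {𝒱 : VarClass k} {ops : CycleOps 𝒱}

/-- The map `L ^ s : H^i(X) → H^(i + 2 s)(X)`, where `L` is the cup product with the class of the
divisor `D`, has an algebraic left inverse: there is a cycle `Z` of codimension `dim X - s` on
`X × X`, with rational coefficients, with `Z_* (L ^ s a) = a` for all `a` in `H^i(X)`. -/
def LeftInvAlg (W : WeilCohomology.{u, v} ops) (X : 𝒱.Obj) (D : X.Cycles) (i s : ℕ) : Prop :=
  ∃ c : ℕ, c + s = X.dim ∧ ∃ Z, (X.prod X).IsCyc c Z ∧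
    LeftInverseOn (W.gr X) (W.cl X D) i s (W.corr (W.cl (X.prod X) Z))

/-- The divisor `D × Y + X × E` on `X × Y`. -/
noncomputable def boxCyc (ops : CycleOps 𝒱) {X Y : 𝒱.Obj} (D : X.Cycles) (E : Y.Cycles) :
    (X.prod Y).Cycles :=
  ops.pull (fst X Y) D + ops.pull (snd X Y) E

/-- The power `X ^ (k + 1)` of the variety `X`. -/
noncomputable def powObj (X : 𝒱.Obj) : ℕ → 𝒱.Obj
  | 0 => X
  | k + 1 => (powObj X k).prod X

/-- The sum of the inverse images of the divisor `D` under the `k + 1` projections of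
`X ^ (k + 1)` to `X`. -/
noncomputable def powDiv (ops : CycleOps 𝒱) {X : 𝒱.Obj} (D : X.Cycles) :
    (k : ℕ) → (powObj X k).Cycles
  | 0 => D
  | k + 1 => boxCyc ops (powDiv ops D k) D

end Pool.Agent.J4H44.BM
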