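import Pool.Agent.J4H44.BM.Prod

/-!
# Products and the failure of the Lefschetz standard conjecture
-/

open CategoryTheory AlgebraicGeometry Finset

universe u v

namespace Pool.Agent.J4H44.BM

open Pool.Agent.H914 VarClass Obj WeilCohomology Pool.Agent.H447 Pool.Agent.N190.CB

variable {k : Type u} [Field k] {𝒱 : VarClass k} {ops : CycleOps 𝒱}
  {W : WeilCohomology.{u, v} ops} {X Y Z : 𝒱.Obj}

/-- An algebraic idempotent with image of the parity of `i` which is the identity on `H^i(X)`. -/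
structure Cut (W : WeilCohomology.{u, v} ops) (X : 𝒱.Obj) (i : ℕ)
    (f : Module.End W.K (W.H X)) : Prop where
  mem : ROp W X 0 f
  idem : f * f = f
  par : par (W.isInternal X) * f = (-1 : W.K) ^ i • f
  id_on : ∀ a ∈ W.gr X i, f a = a

lemma neg_one_sq (K : Type*) [Field K] (i : ℕ) : ((-1 : K) ^ i) * ((-1 : K) ^ i) = 1 := by
  rw [← mul_pow]; simp

/-- The sign conjecture gives such idempotents. -/
lemma exists_cut (hS : SignStd W X) (i : ℕ) : ∃ f, Cut W X i f := by
  have hOA := rop_opAlg (W := W) (X := X)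
  have hp := par_rop_of_sign hS
  set p := par (W.isInternal X) with hpd
  have hpp : p * p = 1 := par_mul_par _
  have hs := neg_one_sq W.K i
  set σ : W.K := (-1 : W.K) ^ i with hσ
  have h2 : (2 : W.K) ≠ 0 := two_ne_zero
  have hR : ROp W X 0 ((2 : W.K)⁻¹ • (1 + σ • p)) := by
    have h1 : ROp W X 0 ((((-1) ^ i : ℚ) : W.K) • p) := hOA.smul _ hp
    have h3 := hOA.smul (2⁻¹ : ℚ) (hOA.add hOA.one h1)
    push_cast at h3
    exact h3
  refine ⟨(2 : W.K)⁻¹ • (1 + σ • p), hR, ?_, ?_, ?_⟩
  · have h1 : (1 + σ • p) * (1 + σ • p) = (2 : W.K) • (1 + σ • p) := by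
      rw [add_mul, mul_add, mul_add, one_mul, one_mul, mul_one, smul_mul_smul_comm, hpp, hs,
        two_smul, one_smul]
      abel
    rw [smul_mul_smul_comm, h1, smul_smul]
    congr 1
    field_simp
  · have h1 : σ • (1 + σ • p) = p + σ • (1 : Module.End W.K (W.H X)) := by
      rw [smul_add, smul_smul, hs, one_smul, add_comm]
    rw [← hpd, ← hσ, mul_smul_comm, mul_add, mul_one, mul_smul_comm, hpp, smul_comm σ, h1]
  · intro a ha
    rw [LinearMap.smul_apply, LinearMap.add_apply, Module.End.one_apply, LinearMap.smul_apply,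
      hpd, par, scal_apply _ _ ha, smul_smul, hs, one_smul, ← two_smul W.K a, smul_smul,
      inv_mul_cancel₀ h2, one_smul]

/-- The map `L ^ s` on `H^i(X)` fails to have a left inverse in a strong sense: there is an
idempotent which is not zero on `H^i(X)` and whose product with `L ^ s` is numerically trivial. -/
def Bad (W : WeilCohomology.{u, v} ops) (X : 𝒱.Obj) (D : X.Cycles) (i s : ℕ) : Prop :=
  ∃ e, KR W X 0 e ∧ e * e = e ∧ par (W.isInternal X) * e = (-1 : W.K) ^ i • e ∧
    KNum W X s (lop W X D ^ s * e) ∧ ∃ u ∈ W.gr X i, u ≠ 0 ∧ e u = u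

lemma lop_rop {D : X.Cycles} (hD : X.IsCyc 1 D) (s : ℕ) : ROp W X s (lop W X D ^ s) := by
  have := (rop_opAlg (W := W) (X := X)).pow (rop_mulLeft hD) s
  rwa [mul_one] at this

lemma lop_pow_apply (D : X.Cycles) (s : ℕ) (a : W.H X) :
    (lop W X D ^ s) a = W.cl X D ^ s * a := by
  induction s with
  | zero => rw [pow_zero, pow_zero, one_mul, Module.End.one_apply]
  | succ s ih =>
    rw [pow_succ', Module.End.mul_apply, ih, lop, LinearMap.mulLeft_apply, pow_succ', mul_assoc]

/-- The failure of the existence of a left inverse is a failure in the strong sense. -/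
theorem bad_of_not {D : X.Cycles} (hD : X.IsCyc 1 D) {i s : ℕ} (hs : s ≤ X.dim)
    {f : Module.End W.K (W.H X)} (hf : Cut W X i f) (h : ¬ LeftInvAlg W X D i s) :
    Bad W X D i s := by
  obtain ⟨z, hz, hgg, hnum⟩ := exists_defect rop_opAlg (W.isInternal X) rop_str hf.mem hf.idem
    hf.par (lop_rop (W := W) hD s)
  set g := f * z * lop W X D ^ s * f with hg
  have hOA := rop_opAlg (W := W) (X := X)
  have hgR : ROp W X 0 g :=
    hOA.cast (hOA.mul (hOA.mul (hOA.mul hf.mem hz) (lop_rop hD s)) hf.mem) (by ring)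
  have hfg : f * g = g := by rw [hg]; simp only [← mul_assoc, hf.idem]
  have hgf : g * f = g := by rw [hg, mul_assoc, hf.idem]
  have hee : (f - g) * (f - g) = f - g := by
    rw [sub_mul, mul_sub, mul_sub, hf.idem, hfg, hgf, hgg]; abel
  refine ⟨f - g, ROp.kr (hOA.sub hf.mem hgR), hee, ?_, knum_of_num hnum, ?_⟩
  · have h1 : par (W.isInternal X) * g = (-1 : W.K) ^ i • g := by
      rw [← hfg, ← mul_assoc, hf.par, smul_mul_assoc]
    rw [mul_sub, hf.par, h1, smul_sub]
  · by_contra hcon
    push Not at hcon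
    apply h
    have hzero : ∀ a ∈ W.gr X i, (f - g) a = 0 := by
      intro a ha
      by_contra h0
      have h1 := (ROp.kr (hOA.sub hf.mem hgR) : KR W X 0 (f - g))
      have h2 := kr_hom h1 i a (by rw [grZ_natCast]; exact ha)
      rw [mul_zero, add_zero, grZ_natCast] at h2
      refine hcon _ h2 h0 ?_
      have h3 := congrArg (fun F => F a) hee
      simpa using h3
    obtain ⟨Z', hZ', hZe⟩ := exists_of_rop (p := X.dim - s) (d := -s) (by omega)
      (hOA.cast (hOA.mul hf.mem hz) (by ring) : ROp W X (-s) (f * z))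
    refine ⟨X.dim - s, by omega, Z', hZ', fun a ha => ?_⟩
    rw [hZe, ← lop_pow_apply, ← Module.End.mul_apply]
    have h1 := hzero a ha
    rw [LinearMap.sub_apply, hf.id_on a ha, sub_eq_zero] at h1
    have h2 : g a = (f * z * lop W X D ^ s) a := by
      rw [hg, Module.End.mul_apply, hf.id_on a ha]
    rw [← h2]
    exact h1.symm

/-- A failure in the strong sense is a failure. -/
theorem not_of_bad {D : X.Cycles} {i s : ℕ} (h : Bad W X D i s) {w : Module.End W.K (W.H X)}
    (hw : KR W X (-s) w) : ¬ ∀ a ∈ W.gr X i, w ((lop W X D ^ s) a) = a := by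
  intro hinv
  obtain ⟨e, heR, hee, hpe, hnum, u, hu, hu0, heu⟩ := h
  have hOA := kr_opAlg (W := W) (X := X)
  have hM : KNum W X 0 (e * (w * (lop W X D ^ s * e))) := by
    have h1 := NumR.mul_left kr_opAlg hw hnum
    have h2 := NumR.mul_left kr_opAlg heR h1
    exact h2.cast (by ring)
  set M := e * (w * (lop W X D ^ s * e)) with hMd
  have hpM : par (W.isInternal X) * M = (-1 : W.K) ^ i • M := by
    rw [hMd, ← mul_assoc, hpe, smul_mul_assoc]
  have hnil : IsNilpotent M := by
    apply isNilpotent_of_trace_pow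
    intro r
    have h1 := hM.2 (M ^ r) (hOA.cast (hOA.pow hM.1 r) (by ring))
    rw [← mul_assoc, hpM, smul_mul_assoc, ← pow_succ', map_smul, smul_eq_mul] at h1
    exact (mul_eq_zero.1 h1).resolve_left (pow_ne_zero _ (neg_ne_zero.2 one_ne_zero))
  have hMu : M u = u := by
    rw [hMd, Module.End.mul_apply, Module.End.mul_apply, Module.End.mul_apply, heu, hinv u hu, heu]
  obtain ⟨N, hN⟩ := hnil
  have hpow : ∀ n : ℕ, (M ^ n) u = u := by
    intro n
    induction n with
    | zero => rw [pow_zero, Module.End.one_apply]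
    | succ n ih => rw [pow_succ, Module.End.mul_apply, hMu, ih]
  apply hu0
  rw [← hpow N, hN, LinearMap.zero_apply]

theorem not_leftInv_of_bad {D : X.Cycles} {i s : ℕ} (h : Bad W X D i s) :
    ¬ LeftInvAlg W X D i s := by
  rintro ⟨c, hc, Z', hZ', hinv⟩
  refine not_of_bad h (w := W.corr (W.cl _ Z')) (KOp.gen (p := c) (by omega) hZ') ?_
  intro a ha
  rw [lop_pow_apply]
  exact hinv a ha

/-- External products of nonzero elements are not zero. -/
lemma tmul_ne_zero {u : W.H X} {v : W.H Y} (hu : u ≠ 0) (hv : v ≠ 0) :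
    W.map (fst X Y) u * W.map (snd X Y) v ≠ 0 := by
  rw [← kappa_tmul]
  intro h0
  have h1 : (TensorProduct.tmul W.K u v) = 0 := (kappa W X Y).map_eq_zero_iff.1 h0
  obtain ⟨l, hl⟩ : ∃ l : Module.Dual W.K (W.H X), l u ≠ 0 := by
    by_contra hcon
    push Not at hcon
    exact hu ((Module.forall_dual_apply_eq_zero_iff W.K _).1 hcon)
  have h2 := congrArg (fun t => TensorProduct.lid W.K (W.H Y)
    (TensorProduct.map l (LinearMap.id) t)) h1
  simp only [TensorProduct.map_tmul, TensorProduct.lid_tmul, LinearMap.id_apply, map_zero] at h2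
  exact (smul_ne_zero hl hv) h2

/-- **Products of failures.** -/
theorem bad_prod {D : X.Cycles} {E : Y.Cycles} (hD : X.IsCyc 1 D) (hE : Y.IsCyc 1 E)
    {i j s t : ℕ} (ht : 1 ≤ t) (h1 : Bad W X D i s) (h2 : Bad W Y E j t) :
    Bad W (X.prod Y) (boxCyc ops D E) (i + j) (s + t - 1) := by
  obtain ⟨e, heR, hee, hpe, hnum, u, hu, hu0, heu⟩ := h1
  obtain ⟨e', heR', hee', hpe', hnum', v, hv, hv0, hev⟩ := h2
  have hOX := kr_opAlg (W := W) (X := X)
  have hOY := kr_opAlg (W := W) (X := Y)
  have hOXY := kr_opAlg (W := W) (X := X.prod Y)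
  refine ⟨extOp W e e', kr_opAlg.cast (kr_ext heR heR') (by ring), ?_, ?_, ?_,
    W.map (fst X Y) u * W.map (snd X Y) v,
    W.mul_mem (W.map_mem _ hu) (W.map_mem _ hv), tmul_ne_zero hu0 hv0, ?_⟩
  · rw [extOp_mul, hee, hee']
  · rw [par_prod, extOp_mul, hpe, hpe', extOp_smul_left, extOp_smul_right, smul_smul, pow_add]
  · rw [lop_box_pow hE]
    apply NumR.sum hOXY
    intro a ha
    rw [Finset.mem_range] at ha
    have key : KNum W (X.prod Y) ((s + t - 1 : ℕ) : ℤ)
        (extOp W (lop W X D ^ a * e) (lop W Y E ^ (s + t - 1 - a) * e')) := by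
      by_cases has : s ≤ a
      · have h3 : KNum W X a (lop W X D ^ a * e) := by
          have h4 := NumR.mul_left hOX (ROp.kr (lop_rop (W := W) hD (a - s))) hnum
          rw [← mul_assoc, ← pow_add, Nat.sub_add_cancel has] at h4
          exact h4.cast (by omega)
        have h5 : KR W Y ((s + t - 1 - a : ℕ) : ℤ) (lop W Y E ^ (s + t - 1 - a) * e') :=
          hOY.cast (hOY.mul (ROp.kr (lop_rop (W := W) hE _)) heR') (by ring)
        exact (KNum.ext_left h3 h5).cast (by omega)
      · have h3 : KNum W Y ((s + t - 1 - a : ℕ) : ℤ) (lop W Y E ^ (s + t - 1 - a) * e') := by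
          have h4 := NumR.mul_left hOY
            (ROp.kr (lop_rop (W := W) hE (s + t - 1 - a - t))) hnum'
          rw [← mul_assoc, ← pow_add, Nat.sub_add_cancel (by omega)] at h4
          exact h4.cast (by omega)
        have h5 : KR W X (a : ℤ) (lop W X D ^ a * e) :=
          hOX.cast (hOX.mul (ROp.kr (lop_rop (W := W) hD _)) heR) (by ring)
        exact (KNum.ext_right h5 h3).cast (by omega)
    have h6 := NumR.mul_left hOXY (a := ((s + t - 1).choose a : W.K) • (1 : Module.End W.K _))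
      (e := 0) (Submodule.smul_mem _ _ (KOp.id _)) key
    rw [smul_mul_assoc, one_mul, zero_add] at h6
    exact h6
  · rw [extOp_tmul, heu, hev]

/-- **The dichotomy for products.** -/
theorem dichotomy {D : X.Cycles} {E : Y.Cycles} (hD : X.IsCyc 1 D) (hE : Y.IsCyc 1 E)
    {i j s t : ℕ} (hsX : s ≤ X.dim) (ht : 1 ≤ t) (htY : t ≤ Y.dim)
    {f : Module.End W.K (W.H X)} (hf : Cut W X i f)
    {g : Module.End W.K (W.H Y)} (hg : Cut W Y j g)
    (h : LeftInvAlg W (X.prod Y) (boxCyc ops D E) (i + j) (s + t - 1)) :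
    LeftInvAlg W X D i s ∨ LeftInvAlg W Y E j t := by
  by_contra hcon
  push Not at hcon
  exact not_leftInv_of_bad (bad_prod hD hE ht (bad_of_not hD hsX hf hcon.1)
    (bad_of_not hE htY hg hcon.2)) h

lemma powDiv_mem {D : X.Cycles} (hD : X.IsCyc 1 D) (k : ℕ) :
    (powObj X k).IsCyc 1 (powDiv ops D k) := by
  induction k with
  | zero => exact hD
  | succ k ih => exact boxCyc_mem ih hD

lemma bad_pow {D : X.Cycles} (hD : X.IsCyc 1 D) {i s : ℕ} (hs : 1 ≤ s) (h : Bad W X D i s)
    (k : ℕ) : Bad W (powObj X k) (powDiv ops D k) ((k + 1) * i) ((k + 1) * (s - 1) + 1) := by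
  induction k with
  | zero =>
    rw [zero_add, one_mul, one_mul, Nat.sub_add_cancel hs]
    exact h
  | succ k ih =>
    have h1 := bad_prod (powDiv_mem hD k) hD hs ih h
    rw [show (k + 1 + 1) * i = (k + 1) * i + i by ring,
      show (k + 1 + 1) * (s - 1) + 1 = (k + 1) * (s - 1) + 1 + s - 1 by
        have : (k + 1 + 1) * (s - 1) = (k + 1) * (s - 1) + (s - 1) := by ring
        omega]
    exact h1

/-- **Powers.** -/
theorem leftInv_of_pow {D : X.Cycles} (hD : X.IsCyc 1 D) {i s : ℕ} (hs : 1 ≤ s) (hsX : s ≤ X.dim)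
    {f : Module.End W.K (W.H X)} (hf : Cut W X i f) (k : ℕ)
    (h : LeftInvAlg W (powObj X k) (powDiv ops D k) ((k + 1) * i) ((k + 1) * (s - 1) + 1)) :
    LeftInvAlg W X D i s := by
  by_contra hcon
  exact not_leftInv_of_bad (bad_pow hD hs (bad_of_not hD hsX hf hcon) k) h

end Pool.Agent.J4H44.BM
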