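import Pool.Agent.J4H44.BM.Kun2

/-!
# Künneth components of general sections of all dimensions
-/

open CategoryTheory AlgebraicGeometry Finset Module

universe u v

namespace Pool.Agent.J4H44.BM

open Pool.Agent.H914 Pool.Agent.H447 VarClass Obj WeilCohomology Pool.Agent.N190.CB
  Pool.Agent.W534

variable {k : Type u} [Field k] {𝒱 : VarClass k} {ops : CycleOps 𝒱}
  {W : WeilCohomology.{u, v} ops} {X : 𝒱.Obj} {D : X.Cycles}

/-- A left inverse of a larger power gives a left inverse of a smaller power. -/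
lemma LeftInvAlg.mono (hD : X.IsCyc 1 D) {i s t : ℕ} (hst : s ≤ t)
    (h : LeftInvAlg W X D i t) : LeftInvAlg W X D i s := by
  obtain ⟨c, hc, -⟩ := id h
  obtain ⟨w, hw, hinv⟩ := (BM.leftInv_iff (by omega)).1 h
  rw [BM.leftInv_iff (by omega)]
  refine ⟨w * lop W X D ^ (t - s), ?_, fun a ha => ?_⟩
  · have hOA := rop_opAlg (W := W) (X := X)
    exact rop_iff.1 (hOA.cast (hOA.mul (rop_iff.2 hw) (lop_rop (W := W) hD (t - s))) (by
      push_cast [hst]; ring))
  · rw [Module.End.mul_apply, lop_pow_apply, ← mul_assoc, ← pow_add, Nat.sub_add_cancel hst]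
    exact hinv a ha

/-- **General sections of all dimensions.** -/
theorem flag_tfae (hD : X.IsCyc 1 D) {Y : ℕ → 𝒱.Obj} {j : ∀ m, Y m ⟶ X}
    (hY : SectionsOfAllDims W X D Y j) : FlagStatement W X D Y := by
  unfold FlagStatement
  tfae_have 1 → 2 := by
    intro h
    refine ⟨fun i hi => ?_, fun m h0 hm => sign_of_kunnethStd (h m h0 hm)⟩
    obtain ⟨h1, G⟩ := hY (i + 1) (by omega) hi
    exact ((G.kunnethAt_iff hD (by omega)).1 (h (i + 1) (by omega) hi i)).1
  tfae_have 2 → 3 := by
    rintro ⟨h1, h2⟩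
    refine ⟨h1, fun i s hs his => ?_⟩
    by_cases hpar : i % 2 = (X.dim - s) % 2
    · obtain ⟨hd, G⟩ := hY (X.dim - s - 1) (by omega) (by omega)
      have h3 := (((G.signStd_iff hD).1 (h2 (X.dim - s - 1) (by omega) (by omega))) i
        (by omega) (by omega)).2
      rw [hd] at h3
      exact h3.mono hD (by omega)
    · obtain ⟨hd, G⟩ := hY (X.dim - s) (by omega) (by omega)
      have h3 := (((G.signStd_iff hD).1 (h2 (X.dim - s) (by omega) (by omega))) i
        (by omega) (by rw [hd]; exact hpar)).2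
      rw [hd] at h3
      exact h3.mono hD (by omega)
  tfae_have 3 → 1 := by
    rintro ⟨h1, h2⟩ m h0 hm
    obtain ⟨hd, G⟩ := hY m h0 hm
    rw [G.kunnethStd_iff hD]
    intro i hi
    rw [hd] at hi ⊢
    exact ⟨h1 i (by omega), h2 i (X.dim - m) (by omega) (by omega)⟩
  tfae_finish

end Pool.Agent.J4H44.BM
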