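import Pool.Agent.J4H44.BM.Dich
import Pool.Agent.J4H44.BM.NilDefs
import Pool.Agent.H447R3.DegB

/-!
# The nilpotence of numerically trivial correspondences and left inverses
-/

open CategoryTheory AlgebraicGeometry Finset Polynomial Module

universe u v

namespace Pool.Agent.J4H44.BM

open Pool.Agent.H914 Pool.Agent.H447

section Alg

variable {K : Type*} [Field K] [CharZero K] {V : Type*} [AddCommGroup V] [Module K V]
  [Module.Finite K V] {gr : ℕ → Submodule K V} {R : ℤ → Module.End K V → Prop}

/-- There is an idempotent `g` of maximal rank of the form `z L`, and then `L (1 - g)` is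
numerically trivial. -/
theorem exists_defectK (hR : OpAlg gr R) (hK : ∀ (c : K) {d y}, R d y → R d (c • y))
    (h : DirectSum.IsInternal gr) {L : Module.End K V} {s : ℤ} (hL : R s L) :
    ∃ z, R (-s) z ∧ (z * L) * (z * L) = z * L ∧ NumR h R s (L * (1 - z * L)) := by
  set S : Set ℕ := {m | ∃ z, R (-s) z ∧ (z * L) * (z * L) = z * L ∧
    finrank K (LinearMap.range (z * L)) = m} with hS
  have hne : S.Nonempty := ⟨_, 0, hR.zero _, by simp, rfl⟩
  have hbd : BddAbove S := ⟨finrank K V, by
    rintro m ⟨z, -, -, rfl⟩
    exact Submodule.finrank_le _⟩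
  obtain ⟨z, hz, hgg, hrk⟩ := Nat.sSup_mem hne hbd
  refine ⟨z, hz, hgg, ?_⟩
  set g : Module.End K V := z * L with hg
  have hgR : R 0 g := hR.cast (hR.mul hz hL) (by ring)
  set e : Module.End K V := 1 - g with he
  have heR : R 0 e := hR.sub hR.one hgR
  have hee : e * e = e := by
    rw [he, sub_mul, mul_sub, mul_sub, hgg]; simp
  have hge : g * e = 0 := by rw [he, mul_sub, mul_one, hgg, sub_self]
  have heg : e * g = 0 := by rw [he, sub_mul, one_mul, hgg, sub_self]
  -- polynomials
  have hpol : ∀ {x : Module.End K V} (_ : R 0 x) (p : K[X]), R 0 (aeval x p) := by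
    intro x hx p
    induction p using Polynomial.induction_on' with
    | add p q hp hq => rw [map_add]; exact hR.add hp hq
    | monomial n a =>
      rw [aeval_monomial, Algebra.algebraMap_eq_smul_one, smul_mul_assoc, one_mul]
      exact hK a (hR.cast (hR.pow hx n) (by ring))
  -- the corners are nilpotent
  have key : ∀ y, R (-s) y → IsNilpotent (e * y * L * e) := by
    intro y hy
    set x : Module.End K V := e * y * L * e with hx
    have hxR : R 0 x := hR.cast (hR.mul (hR.mul (hR.mul heR hy) hL) heR) (by ring)
    have hex : e * x = x := by rw [hx]; simp only [← mul_assoc, hee]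
    have hxe : x * e = x := by rw [hx, mul_assoc, hee]
    obtain ⟨w, k, -, hw, hkw, p, hp⟩ := exists_fitting x
    set g' : Module.End K V := aeval x p * x with hg'
    have hg'w : g' = 1 - aeval x w := by
      have h1 : aeval x (1 - w) = aeval x (p * X) := by rw [hp, mul_comm]
      rw [map_sub, map_one, map_mul, aeval_X] at h1
      exact h1.symm
    have hpp : g' * g' = g' := by
      rw [hg'w, sub_mul, mul_sub, mul_sub, hw]; simp
    have hcomm : Commute (aeval x p) x := by
      have : Commute (aeval x p) (aeval x (X : K[X])) := by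
        rw [Commute, SemiconjBy, ← map_mul, ← map_mul, mul_comm]
      rwa [aeval_X] at this
    have hg'e : g' * e = g' := by rw [hg', mul_assoc, hxe]
    have heg' : e * g' = g' := by rw [hg', hcomm.eq, ← mul_assoc, hex]
    set a : Module.End K V := aeval x p * e * y - aeval x p * e * y * L * z with ha
    have haR : R (-s) a := by
      have hp0 : R 0 (aeval x p) := hpol hxR p
      apply hR.sub
      · exact hR.cast (hR.mul (hR.mul hp0 heR) hy) (by ring)
      · exact hR.cast (hR.mul (hR.mul (hR.mul (hR.mul hp0 heR) hy) hL) hz) (by ring)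
    have hg'a : g' = a * L := by
      calc g' = aeval x p * (e * y * L * e) := by rw [← hx]
        _ = (aeval x p * e * y * L) * e := by simp only [mul_assoc]
        _ = (aeval x p * e * y * L) * (1 - z * L) := by rw [← hg, ← he]
        _ = a * L := by rw [ha]; noncomm_ring
    have hsum : (z + a) * L = g + g' := by
      rw [hg, hg'a, add_mul]
    have hgg' : g * g' = 0 := by rw [← heg', ← mul_assoc, hge, zero_mul]
    have hg'g : g' * g = 0 := by rw [← hg'e, mul_assoc, heg, mul_zero]
    have hidem : (g + g') * (g + g') = g + g' := by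
      rw [add_mul, mul_add, mul_add, hgg, hgg', hg'g, hpp]; abel
    have hmem : finrank K (LinearMap.range (g + g')) ∈ S :=
      ⟨z + a, hR.add hz haR, by rw [hsum]; exact hidem, by rw [hsum]⟩
    have hle := le_csSup hbd hmem
    rw [← hrk] at hle
    have htr1 : (finrank K (LinearMap.range (g + g')) : K) =
        finrank K (LinearMap.range g) + finrank K (LinearMap.range g') := by
      rw [← trace_idem hidem, ← trace_idem hgg, ← trace_idem hpp, map_add]
    have htr2 : finrank K (LinearMap.range (g + g')) =
        finrank K (LinearMap.range g) + finrank K (LinearMap.range g') := by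
      exact_mod_cast htr1
    have h0 : finrank K (LinearMap.range g') = 0 := by omega
    have hg'0 : g' = 0 := by
      apply eq_zero_of_idem_of_trace_eq_zero hpp
      rw [trace_idem hpp, h0, Nat.cast_zero]
    refine ⟨k, ?_⟩
    have hw1 : aeval x w = 1 := by
      rw [hg'0] at hg'w
      exact (sub_eq_zero.1 hg'w.symm).symm
    rw [hw1, mul_one] at hkw
    exact hkw
  refine ⟨hR.cast (hR.mul hL heR) (by ring), fun y hy => ?_⟩
  rw [str_comm h (hR.hom (hR.cast (hR.mul hL heR) (by ring) : R s (L * e)))]
  have h1 : par h * (y * (L * e)) = (par h * y * L * e) * e := by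
    rw [mul_assoc _ e e, hee]; simp only [mul_assoc]
  have hpe : e * par h = par h * e := ((hR.hom heR).par_comm h).symm
  rw [h1, LinearMap.trace_mul_comm]
  have h2 : e * (par h * y * L * e) = par h * (e * y * L * e) := by
    simp only [← mul_assoc]
    rw [hpe]
  rw [h2]
  have hxR : R 0 (e * y * L * e) := hR.cast (hR.mul (hR.mul (hR.mul heR hy) hL) heR) (by ring)
  have hcx : Commute (par h) (e * y * L * e) := (hR.hom hxR).par_comm h
  exact trace_nilp (hcx.isNilpotent_mul_left (key y hy))

end Alg

open VarClass Obj WeilCohomology Pool.Agent.N190.CB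

variable {k : Type u} [Field k] {𝒱 : VarClass k} {ops : CycleOps 𝒱}
  {W : WeilCohomology.{u, v} ops} {X Y Z : 𝒱.Obj}

lemma kr_smul (c : W.K) {d : ℤ} {y : Module.End W.K (W.H X)} (hy : KR W X d y) :
    KR W X d (c • y) := Submodule.smul_mem _ _ hy

/-- A linear combination of vectors lies in a subspace if all its rational retracts do. -/
lemma sum_smul_mem {K : Type*} [Field K] [CharZero K] {V : Type*} [AddCommGroup V]
    [Module K V] (P : Submodule K V) {m : ℕ} (c : Fin m → K) (x : Fin m → V)
    (h : ∀ ret : K →ₗ[ℚ] ℚ, ∑ i, ((ret (c i) : ℚ) : K) • x i ∈ P) : ∑ i, c i • x i ∈ P := by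
  rw [← Submodule.Quotient.mk_eq_zero, ← Submodule.mkQ_apply, map_sum]
  simp only [map_smul]
  apply sum_smul_eq_zero
  intro ret
  have h1 := (Submodule.Quotient.mk_eq_zero P).2 (h ret)
  rw [← Submodule.mkQ_apply, map_sum] at h1
  simpa only [map_smul] using h1

/-- The numerically trivial rational correspondences act nilpotently. -/
lemma NumNil.rop (h : NumNil W X) {x : Module.End W.K (W.H X)}
    (hx : NumR (W.isInternal X) (ROp W X) 0 x) : IsNilpotent x := by
  obtain ⟨Z, hZ, rfl⟩ := exists_of_rop (p := X.dim) (by simp) hx.1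
  refine h Z hZ fun Z' hZ' => ?_
  have h1 := hx.2 (W.corr (W.cl _ (ops.pull (swap X X) Z')))
    (rop_corr (p := X.dim) (by simp) (ops.pull_mem _ hZ'))
  rw [str_eq_deg (by ring) hZ (ops.pull_mem _ hZ')] at h1
  have h2 : (X.prod X).V.degCycle (ops.mul Z (ops.pull (swap X X) (ops.pull (swap X X) Z'))) =
      (X.prod X).V.degCycle (ops.mul Z Z') := by
    have e1 := tr_mul_cl (W := W) hZ (ops.pull_mem (swap X X) (ops.pull_mem (swap X X) hZ'))
      (by rw [dim_prod])
    have e2 := tr_mul_cl (W := W) hZ hZ' (by rw [dim_prod])
    rw [W.cl_pull, W.cl_pull, Pool.Agent.H447.map_swap_swap] at e1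
    rw [e1] at e2
    exact_mod_cast e2
  rw [h2] at h1
  exact_mod_cast h1

/-- The numerically trivial correspondences with coefficients act nilpotently. -/
theorem NumNil.nilp (h : NumNil W X) {x : Module.End W.K (W.H X)} (hx : KNum W X 0 x) :
    IsNilpotent x := by
  -- the trace of a numerically trivial operator is zero
  have htr : ∀ y, KNum W X 0 y → LinearMap.trace W.K _ y = 0 := by
    intro y hy
    have hmem : y ∈ Submodule.span W.K {x | NumR (W.isInternal X) (ROp W X) 0 x} := by
      have h1 : y ∈ KS (ROp W X) 0 := mem_KS_iff.2 hy.1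
      rw [KS, Submodule.mem_span_set'] at h1
      obtain ⟨m, c, g, hg⟩ := h1
      rw [← hg]
      apply sum_smul_mem _ c (fun i => (g i : Module.End W.K (W.H X)))
      intro ret
      apply Submodule.subset_span
      refine ⟨?_, fun z hz => ?_⟩
      · apply rop_opAlg.sum
        intro i _
        exact rop_opAlg.smul _ (g i).2
      · have h2 := hy.2 z (ROp.kr hz)
        have h3 : ∀ i, ∃ q : ℚ, LinearMap.trace W.K _ (par (W.isInternal X) *
            ((g i : Module.End W.K (W.H X)) * z)) = q := by
          intro i
          exact rop_str _ (rop_opAlg.cast (rop_opAlg.mul (g i).2 hz) (by ring))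
        choose q hq using h3
        rw [← hg, Finset.sum_mul, Finset.mul_sum, map_sum] at h2
        have h4 : ∑ i, c i * (q i : W.K) = 0 := by
          rw [← h2]
          apply Finset.sum_congr rfl
          intro i _
          rw [smul_mul_assoc, mul_smul_comm, map_smul, hq, smul_eq_mul]
        have h5 : ∑ i, ret (c i) * q i = 0 := by
          have h6 := congrArg ret h4
          rw [map_sum, map_zero] at h6
          rw [← h6]
          apply Finset.sum_congr rfl
          intro i _
          rw [ret_mul]
        rw [Finset.sum_mul, Finset.mul_sum, map_sum]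
        have h7 : ((∑ i, ret (c i) * q i : ℚ) : W.K) = 0 := by rw [h5, Rat.cast_zero]
        rw [← h7]
        push_cast
        apply Finset.sum_congr rfl
        intro i _
        rw [smul_mul_assoc, mul_smul_comm, map_smul, hq, smul_eq_mul]
    clear hy
    induction hmem using Submodule.span_induction with
    | mem y hy => exact trace_nilp (h.rop hy)
    | zero => rw [map_zero]
    | add y z _ _ hy hz => rw [map_add, hy, hz, add_zero]
    | smul a y _ hy => rw [map_smul, hy, smul_zero]
  apply isNilpotent_of_trace_pow
  intro r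
  apply htr
  have hOA := kr_opAlg (W := W) (X := X)
  have h1 := NumR.mul_left hOA (a := x ^ r) (e := 0) (hOA.cast (hOA.pow hx.1 r) (by ring)) hx
  rw [← pow_succ] at h1
  exact h1.cast (by ring)

end Pool.Agent.J4H44.BM
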