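import Pool.Agent.J4H44.BM.NilA

/-!
# The dichotomy for products
-/

open CategoryTheory AlgebraicGeometry Finset Module

universe u v

namespace Pool.Agent.J4H44.BM

open Pool.Agent.H914 Pool.Agent.H447 VarClass Obj WeilCohomology Pool.Agent.N190.CB

variable {k : Type u} [Field k] {𝒱 : VarClass k} {ops : CycleOps 𝒱}
  {W : WeilCohomology.{u, v} ops} {X Y Z : 𝒱.Obj}

lemma leftInvK_iff {D : X.Cycles} {i s : ℕ} (hs : s ≤ X.dim) : LeftInvK W X D i s ↔
    ∃ w : Module.End W.K (W.H X), KR W X (-s) w ∧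
      ∀ a ∈ W.gr X i, w ((lop W X D ^ s) a) = a := by
  constructor
  · rintro ⟨c, hc, γ, hγ, h⟩
    refine ⟨W.corr γ, ?_, fun a ha => by rw [lop_pow_apply]; exact h a ha⟩
    exact mem_KOp_iff.2 ⟨γ, by rwa [show (X.dim : ℤ) + -s = c by omega], rfl⟩
  · rintro ⟨w, hw, h⟩
    obtain ⟨γ, hγ, rfl⟩ := mem_KOp_iff.1 hw
    refine ⟨X.dim - s, by omega, γ, ?_, fun a ha => by rw [← lop_pow_apply]; exact h a ha⟩
    rwa [show (((X.dim - s : ℕ) : ℕ) : ℤ) = (X.dim : ℤ) + -s by omega]

lemma LeftInvAlg.leftInvK {D : X.Cycles} {i s : ℕ} (h : LeftInvAlg W X D i s) :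
    LeftInvK W X D i s := by
  obtain ⟨c, hc, Z, hZ, h⟩ := h
  exact ⟨c, hc, W.cl _ Z, mem_span_cl hZ, h⟩

/-- The map `L ^ s` on `H^i(X)` fails to have a left inverse in a strong sense: there is an
idempotent which is not zero on `H^i(X)` and whose product with `L ^ s` is numerically trivial. -/
def BadK (W : WeilCohomology.{u, v} ops) (X : 𝒱.Obj) (D : X.Cycles) (i s : ℕ) : Prop :=
  ∃ e, KR W X 0 e ∧ e * e = e ∧ KNum W X s (lop W X D ^ s * e) ∧ ∃ u ∈ W.gr X i, u ≠ 0 ∧ e u = u

/-- The failure of the existence of a left inverse is a failure in the strong sense. -/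
theorem badK_of_not {D : X.Cycles} (hD : X.IsCyc 1 D) {i s : ℕ} (hs : s ≤ X.dim)
    (h : ¬ LeftInvK W X D i s) : BadK W X D i s := by
  have hOA := kr_opAlg (W := W) (X := X)
  obtain ⟨z, hz, hgg, hnum⟩ := exists_defectK hOA kr_smul (W.isInternal X)
    (ROp.kr (lop_rop (W := W) hD s))
  set g := z * lop W X D ^ s with hg
  have hgR : KR W X 0 g := hOA.cast (hOA.mul hz (ROp.kr (lop_rop hD s))) (by ring)
  have hee : (1 - g) * (1 - g) = 1 - g := by
    rw [sub_mul, mul_sub, mul_sub, hgg]; simp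
  refine ⟨1 - g, hOA.sub hOA.one hgR, hee, hnum, ?_⟩
  by_contra hcon
  push Not at hcon
  apply h
  have hzero : ∀ a ∈ W.gr X i, (1 - g) a = 0 := by
    intro a ha
    by_contra h0
    have h2 := kr_hom (hOA.sub hOA.one hgR) i a (by rw [grZ_natCast]; exact ha)
    rw [mul_zero, add_zero, grZ_natCast] at h2
    refine hcon _ h2 h0 ?_
    have h3 := congrArg (fun F => F a) hee
    simpa using h3
  rw [leftInvK_iff hs]
  refine ⟨z, hz, fun a ha => ?_⟩
  have h1 := hzero a ha
  rw [LinearMap.sub_apply, Module.End.one_apply, sub_eq_zero] at h1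
  exact h1.symm

/-- A failure in the strong sense is a failure, if numerically trivial correspondences are
nilpotent. -/
theorem not_leftInvK_of_badK {D : X.Cycles} {i s : ℕ} (hN : NumNil W X) (h : BadK W X D i s) :
    ¬ LeftInvK W X D i s := by
  intro hinv0
  obtain ⟨w, hw, hinv⟩ : ∃ w : Module.End W.K (W.H X), KR W X (-s) w ∧
      ∀ a ∈ W.gr X i, w ((lop W X D ^ s) a) = a := by
    obtain ⟨c, hc, -⟩ := id hinv0
    exact (leftInvK_iff (by omega)).1 hinv0
  obtain ⟨e, heR, hee, hnum, u, hu, hu0, heu⟩ := h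
  have hOA := kr_opAlg (W := W) (X := X)
  have hM : KNum W X 0 (e * (w * (lop W X D ^ s * e))) := by
    have h1 := NumR.mul_left kr_opAlg hw hnum
    have h2 := NumR.mul_left kr_opAlg heR h1
    exact h2.cast (by ring)
  set M := e * (w * (lop W X D ^ s * e)) with hMd
  have hMu : M u = u := by
    rw [hMd, Module.End.mul_apply, Module.End.mul_apply, Module.End.mul_apply, heu, hinv u hu, heu]
  obtain ⟨N, hN⟩ := hN.nilp hM
  have hpow : ∀ n : ℕ, (M ^ n) u = u := by
    intro n
    induction n with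
    | zero => rw [pow_zero, Module.End.one_apply]
    | succ n ih => rw [pow_succ, Module.End.mul_apply, hMu, ih]
  apply hu0
  rw [← hpow N, hN, LinearMap.zero_apply]

/-- **Products of failures.** -/
theorem badK_prod {D : X.Cycles} {E : Y.Cycles} (hD : X.IsCyc 1 D) (hE : Y.IsCyc 1 E)
    {i j s t : ℕ} (ht : 1 ≤ t) (h1 : BadK W X D i s) (h2 : BadK W Y E j t) :
    BadK W (X.prod Y) (boxCyc ops D E) (i + j) (s + t - 1) := by
  obtain ⟨e, heR, hee, hnum, u, hu, hu0, heu⟩ := h1
  obtain ⟨e', heR', hee', hnum', v, hv, hv0, hev⟩ := h2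
  have hOX := kr_opAlg (W := W) (X := X)
  have hOY := kr_opAlg (W := W) (X := Y)
  have hOXY := kr_opAlg (W := W) (X := X.prod Y)
  refine ⟨extOp W e e', kr_opAlg.cast (kr_ext heR heR') (by ring), ?_, ?_,
    W.map (fst X Y) u * W.map (snd X Y) v,
    W.mul_mem (W.map_mem _ hu) (W.map_mem _ hv), tmul_ne_zero hu0 hv0, ?_⟩
  · rw [extOp_mul, hee, hee']
  · rw [lop_box_pow hE]
    apply NumR.sum hOXY
    intro a ha
    rw [Finset.mem_range] at ha
    have key : KNum W (X.prod Y) ((s + t - 1 : ℕ) : ℤ)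
        (extOp W (lop W X D ^ a * e) (lop W Y E ^ (s + t - 1 - a) * e')) := by
      by_cases has : s ≤ a
      · have h3 : KNum W X a (lop W X D ^ a * e) := by
          have h4 := NumR.mul_left hOX (ROp.kr (lop_rop (W := W) hD (a - s))) hnum
          rw [← mul_assoc, ← pow_add, Nat.sub_add_cancel has] at h4
          exact h4.cast (by omega)
        have h5 : KR W Y ((s + t - 1 - a : ℕ) : ℤ) (lop W Y E ^ (s + t - 1 - a) * e') :=
          hOY.cast (hOY.mul (ROp.kr (lop_rop (W := W) hE _)) heR') (by ring)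
        exact (KNum.ext_left h3 h5).cast (by omega)
      · have h3 : KNum W Y ((s + t - 1 - a : ℕ) : ℤ) (lop W Y E ^ (s + t - 1 - a) * e') := by
          have h4 := NumR.mul_left hOY
            (ROp.kr (lop_rop (W := W) hE (s + t - 1 - a - t))) hnum'
          rw [← mul_assoc, ← pow_add, Nat.sub_add_cancel (by omega)] at h4
          exact h4.cast (by omega)
        have h5 : KR W X (a : ℤ) (lop W X D ^ a * e) :=
          hOX.cast (hOX.mul (ROp.kr (lop_rop (W := W) hD _)) heR) (by ring)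
        exact (KNum.ext_right h5 h3).cast (by omega)
    have h6 := NumR.mul_left hOXY (a := ((s + t - 1).choose a : W.K) • (1 : Module.End W.K _))
      (e := 0) (Submodule.smul_mem _ _ (KOp.id _)) key
    rw [smul_mul_assoc, one_mul, zero_add] at h6
    exact h6
  · rw [extOp_tmul, heu, hev]

/-- **The dichotomy for products.** -/
theorem dichotomyK {D : X.Cycles} {E : Y.Cycles} (hD : X.IsCyc 1 D) (hE : Y.IsCyc 1 E)
    {i j s t : ℕ} (hsX : s ≤ X.dim) (ht : 1 ≤ t) (htY : t ≤ Y.dim) (hN : NumNil W (X.prod Y))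
    (h : LeftInvK W (X.prod Y) (boxCyc ops D E) (i + j) (s + t - 1)) :
    LeftInvK W X D i s ∨ LeftInvK W Y E j t := by
  by_contra hcon
  push Not at hcon
  exact not_leftInvK_of_badK hN (badK_prod hD hE ht (badK_of_not hD hsX hcon.1)
    (badK_of_not hE htY hcon.2)) h

lemma badK_pow {D : X.Cycles} (hD : X.IsCyc 1 D) {i s : ℕ} (hs : 1 ≤ s) (h : BadK W X D i s)
    (k : ℕ) : BadK W (powObj X k) (powDiv ops D k) ((k + 1) * i) ((k + 1) * (s - 1) + 1) := by
  induction k with
  | zero =>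
    rw [zero_add, one_mul, one_mul, Nat.sub_add_cancel hs]
    exact h
  | succ k ih =>
    have h1 := badK_prod (powDiv_mem hD k) hD hs ih h
    rw [show (k + 1 + 1) * i = (k + 1) * i + i by ring,
      show (k + 1 + 1) * (s - 1) + 1 = (k + 1) * (s - 1) + 1 + s - 1 by
        have : (k + 1 + 1) * (s - 1) = (k + 1) * (s - 1) + (s - 1) := by ring
        omega]
    exact h1

/-- **Powers.** -/
theorem leftInvK_of_pow {D : X.Cycles} (hD : X.IsCyc 1 D) {i s : ℕ} (hs : 1 ≤ s) (hsX : s ≤ X.dim)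
    (k : ℕ) (hN : NumNil W (powObj X k))
    (h : LeftInvK W (powObj X k) (powDiv ops D k) ((k + 1) * i) ((k + 1) * (s - 1) + 1)) :
    LeftInvK W X D i s := by
  by_contra hcon
  exact not_leftInvK_of_badK hN (badK_pow hD hs (badK_of_not hD hsX hcon) k) h

end Pool.Agent.J4H44.BM
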