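import Pool.Agent.J4H44.BM.Defect
import Pool.Agent.J4H44.BM.Defs
import Pool.Agent.N190.CB.Tr
import Pool.Agent.H447R3.NumB
import Pool.Agent.H447R3.SpC

/-!
# Numerically trivial operators on a product
-/

open CategoryTheory AlgebraicGeometry Finset

universe u v

namespace Pool.Agent.J4H44.BM

open Pool.Agent.H914 VarClass Obj WeilCohomology Pool.Agent.H447 Pool.Agent.N190.CB

variable {k : Type u} [Field k] {𝒱 : VarClass k} {ops : CycleOps 𝒱}
  {W : WeilCohomology.{u, v} ops} {X Y Z : 𝒱.Obj}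

/-- The operators of degree `d` in the `K`-span of the algebraic correspondences. -/
def KR (W : WeilCohomology.{u, v} ops) (X : 𝒱.Obj) (d : ℤ) (y : Module.End W.K (W.H X)) : Prop :=
  y ∈ KOp W X X d

lemma kr_opAlg : OpAlg (W.gr X) (KR W X) := by
  have h1 : KR W X = fun d y => y ∈ KS (ROp W X) d := by
    funext d y
    exact propext mem_KS_iff.symm
  rw [h1]
  exact rop_opAlg.kspan

lemma ROp.kr {d : ℤ} {y : Module.End W.K (W.H X)} (hy : ROp W X d y) : KR W X d y :=
  mem_KS_iff.1 (Submodule.subset_span hy)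

/-- Numerically trivial operators. -/
def KNum (W : WeilCohomology.{u, v} ops) (X : 𝒱.Obj) (d : ℤ) (x : Module.End W.K (W.H X)) : Prop :=
  NumR (W.isInternal X) (KR W X) d x

lemma knum_of_num {d : ℤ} {x : Module.End W.K (W.H X)}
    (hx : NumR (W.isInternal X) (ROp W X) d x) : KNum W X d x := by
  refine ⟨ROp.kr hx.1, fun y hy => ?_⟩
  have hy' : y ∈ KS (ROp W X) (-d) := mem_KS_iff.2 hy
  clear hy
  induction hy' using Submodule.span_induction with
  | mem y hy => exact hx.2 y hy
  | zero => simp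
  | add y z h1 h2 hy hz => rw [mul_add, mul_add, map_add, hy, hz, add_zero]
  | smul a y h1 hy => rw [mul_smul_comm, mul_smul_comm, map_smul, hy, smul_zero]

lemma kr_hom {d : ℤ} {x : Module.End W.K (W.H X)} (hx : KR W X d x) :
    IsHom (W.gr X) (2 * d) x := kr_opAlg.hom hx

lemma kr_ext {d e : ℤ} {x : Module.End W.K (W.H X)} {y : Module.End W.K (W.H Y)}
    (hx : KR W X d x) (hy : KR W Y e y) : KR W (X.prod Y) (d + e) (extOp W x y) :=
  KOp.ext hx hy

lemma exists_class {T : Module.End W.K (W.H X)} {d : ℤ} (hT : KR W X d T) :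
    ∃ (r : ℕ) (g : W.H (X.prod X)), g ∈ W.gr (X.prod X) (2 * r) ∧ W.corr g = T := by
  obtain ⟨γ, hγ, rfl⟩ := mem_KOp_iff.1 hT
  by_cases hd : 0 ≤ (X.dim : ℤ) + d
  · obtain ⟨r, hr⟩ := Int.eq_ofNat_of_zero_le hd
    rw [hr] at hγ
    exact ⟨r, γ, span_gr hγ, rfl⟩
  · refine ⟨0, 0, Submodule.zero_mem _, ?_⟩
    have h0 : γ = 0 := by
      have h1 : γ ∈ (⊥ : Submodule W.K (W.H (X.prod X))) := by
        have h2 : spanCycles W (X.prod X) ((X.dim : ℤ) + d) = ⊥ := by
          rw [spanCycles, Submodule.span_eq_bot]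
          rintro c ⟨p, hp, -⟩
          omega
        rwa [h2] at hγ
      exact (Submodule.mem_bot _).1 h1
    rw [h0]

/-- A product with a numerically trivial operator on the first factor. -/
theorem KNum.ext_left {d e : ℤ} {x : Module.End W.K (W.H X)} {y : Module.End W.K (W.H Y)}
    (hx : KNum W X d x) (hy : KR W Y e y) : KNum W (X.prod Y) (d + e) (extOp W x y) := by
  refine ⟨kr_ext hx.1 hy, fun z hz => ?_⟩
  obtain ⟨r, g, -, hg⟩ := exists_class hx.1
  obtain ⟨T, hT, h1⟩ := exists_ptrace (X := X) (Z := Y) hz hy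
  rw [str_comm _ (kr_hom (kr_ext hx.1 hy))]
  have h2 := h1 g
  rw [hg, str_apply, str_apply] at h2
  rw [h2, ← str_comm _ (kr_hom hx.1)]
  exact hx.2 T (KOp.cast hT (by ring))

/-- A product with a numerically trivial operator on the second factor. -/
theorem KNum.ext_right {d e : ℤ} {x : Module.End W.K (W.H X)} {y : Module.End W.K (W.H Y)}
    (hx : KR W X d x) (hy : KNum W Y e y) : KNum W (X.prod Y) (d + e) (extOp W x y) := by
  refine ⟨kr_ext hx hy.1, fun z hz => ?_⟩
  obtain ⟨r, g, hgr, hg⟩ := exists_class hy.1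
  obtain ⟨T, hT, h1⟩ := exists_ptrace' (X := X) (Z := Y) hz hx
  rw [str_comm _ (kr_hom (kr_ext hx hy.1))]
  have h2 := h1 hgr
  rw [hg, str_apply, str_apply] at h2
  rw [h2, ← str_comm _ (kr_hom hy.1)]
  exact hy.2 T (KOp.cast hT (by ring))

/-- The parity operator of a product. -/
lemma par_prod : par (W.isInternal (X.prod Y)) =
    extOp W (par (W.isInternal X)) (par (W.isInternal Y)) := by
  apply LinearMap.ext
  intro x
  refine W.kunneth_induction (p := fun x => par (W.isInternal (X.prod Y)) x =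
    extOp W (par (W.isInternal X)) (par (W.isInternal Y)) x) ?_ ?_ x
  · intro a b ha hb
    rw [map_add, map_add, ha, hb]
  · intro i j a ha b hb
    rw [par, scal_apply _ _ (W.mul_mem (W.map_mem (fst X Y) ha) (W.map_mem (snd X Y) hb)),
      extOp_tmul, par, par, scal_apply _ _ ha, scal_apply _ _ hb, map_smul, map_smul,
      smul_mul_assoc, mul_smul_comm, smul_smul, pow_add]

lemma boxCyc_mem {D : X.Cycles} {E : Y.Cycles} (hD : X.IsCyc 1 D) (hE : Y.IsCyc 1 E) :
    (X.prod Y).IsCyc 1 (boxCyc ops D E) :=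
  (ops.pull_mem _ hD).add (ops.pull_mem _ hE)

/-- The cup product with the class of `D`. -/
noncomputable def lop (W : WeilCohomology.{u, v} ops) (X : 𝒱.Obj) (D : X.Cycles) :
    Module.End W.K (W.H X) := LinearMap.mulLeft W.K (W.cl X D)

lemma lop_box {D : X.Cycles} {E : Y.Cycles} (hE : Y.IsCyc 1 E) :
    lop W (X.prod Y) (boxCyc ops D E) = extOp W (lop W X D) 1 + extOp W 1 (lop W Y E) := by
  apply ext_kunneth_lin
  intro a b
  rw [LinearMap.add_apply, extOp_tmul, extOp_tmul, lop, lop, lop, LinearMap.mulLeft_apply,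
    LinearMap.mulLeft_apply, LinearMap.mulLeft_apply, Module.End.one_apply, Module.End.one_apply,
    boxCyc, map_add, W.cl_pull, W.cl_pull, add_mul, map_mul (W.map (fst X Y)),
    map_mul (W.map (snd X Y)), ← mul_assoc, ← mul_assoc, ← mul_assoc,
    W.even_comm (W.map_mem (snd X Y) (W.cl_mem hE))]

lemma ext_pow_left (x : Module.End W.K (W.H X)) (m : ℕ) :
    (extOp W x (1 : Module.End W.K (W.H Y))) ^ m = extOp W (x ^ m) 1 := by
  induction m with
  | zero => rw [pow_zero, pow_zero, extOp_one]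
  | succ m ih => rw [pow_succ, ih, extOp_mul, mul_one, pow_succ]

lemma ext_pow_right (y : Module.End W.K (W.H Y)) (m : ℕ) :
    (extOp W (1 : Module.End W.K (W.H X)) y) ^ m = extOp W 1 (y ^ m) := by
  induction m with
  | zero => rw [pow_zero, pow_zero, extOp_one]
  | succ m ih => rw [pow_succ, ih, extOp_mul, mul_one, pow_succ]

/-- The binomial formula for the powers of the Lefschetz operator of a product. -/
lemma lop_box_pow {D : X.Cycles} {E : Y.Cycles} (hE : Y.IsCyc 1 E) (m : ℕ)
    (x : Module.End W.K (W.H X)) (y : Module.End W.K (W.H Y)) :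
    lop W (X.prod Y) (boxCyc ops D E) ^ m * extOp W x y =
      ∑ a ∈ range (m + 1), (m.choose a : W.K) • extOp W (lop W X D ^ a * x)
        (lop W Y E ^ (m - a) * y) := by
  have hc : Commute (extOp W (lop W X D) (1 : Module.End W.K (W.H Y)))
      (extOp W 1 (lop W Y E)) := by
    rw [Commute, SemiconjBy, extOp_mul, extOp_mul, mul_one, one_mul, mul_one, one_mul]
  rw [lop_box hE, hc.add_pow, Finset.sum_mul]
  apply Finset.sum_congr rfl
  intro a _
  rw [ext_pow_left, ext_pow_right, extOp_mul, mul_one, one_mul, ← Nat.cast_comm, mul_assoc,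
    extOp_mul, ← nsmul_eq_mul, Nat.cast_smul_eq_nsmul W.K]

end Pool.Agent.J4H44.BM
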